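import Mathlib

/-! Positive additive arrays on the quadrant are log-convex in the first index. -/

namespace Pool.Agent.Lib.MP12983e

theorem array_quad (T : ℕ → ℕ → ℝ) (hpos : ∀ p q, 0 ≤ T p q)
    (hadd : ∀ p q, T p q = T (p+1) q + T p (q+1)) :
    ∀ (n : ℕ) (c : ℝ) (p q : ℕ),
      0 ≤ (n:ℝ)*((n:ℝ)-1)*T (p+2) q + n*(1-2*c)*T (p+1) q + c^2*T p q := by
  intro n
  induction n with
  | zero =>
    intro c p q
    have := hpos p q
    simp only [Nat.cast_zero, zero_mul, zero_add]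
    positivity
  | succ n ih =>
    intro c p q
    have h1 := ih (c-1) (p+1) q
    have h2 := ih c p (q+1)
    have a0 := hadd p q
    have a1 := hadd (p+1) q
    have a2 := hadd (p+2) q
    have e1 : p + 1 + 2 = p + 2 + 1 := by ring
    have e2 : p + 1 + 1 = p + 2 := by ring
    rw [e1, e2] at h1
    rw [e2] at a1
    have key : ((n+1:ℕ):ℝ)*(((n+1:ℕ):ℝ)-1)*T (p+2) q + ((n+1:ℕ):ℝ)*(1-2*c)*T (p+1) q + c^2*T p q
        = ((n:ℝ)*((n:ℝ)-1)*T (p+2+1) q + n*(1-2*(c-1))*T (p+2) q + (c-1)^2*T (p+1) q)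
          + ((n:ℝ)*((n:ℝ)-1)*T (p+2) (q+1) + n*(1-2*c)*T (p+1) (q+1) + c^2*T p (q+1)) := by
      push_cast
      rw [a0]
      linear_combination ((n:ℝ)*((n:ℝ)-1)) * a2 + (n*(1-2*c)) * a1
    rw [key]
    exact add_nonneg h1 h2

theorem array_quad' (T : ℕ → ℕ → ℝ) (hpos : ∀ p q, 0 ≤ T p q)
    (hadd : ∀ p q, T p q = T (p+1) q + T p (q+1)) (κ : ℝ) (p q : ℕ) :
    0 ≤ T (p+2) q - 2*κ*T (p+1) q + κ^2*T p q := by
  by_contra hneg
  push Not at hneg
  set A := T (p+2) q - 2*κ*T (p+1) q + κ^2*T p q with hA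
  obtain ⟨n, hn⟩ := exists_nat_gt ((T (p+1) q - T (p+2) q) / (-A))
  have hA' : 0 < -A := by linarith
  rw [div_lt_iff₀ hA'] at hn
  have h1 : (0:ℝ) < n + 1 := by positivity
  have := array_quad T hpos hadd (n+1) ((n+1)*κ) p q
  push_cast at this
  have h2 : ((n:ℝ)+1)*((n:ℝ)+1-1)*T (p+2) q + (n+1)*(1-2*((n+1)*κ))*T (p+1) q
      + ((n+1)*κ)^2*T p q = (n+1) * ((n+1) * A + (T (p+1) q - T (p+2) q)) := by
    rw [hA]; ring
  rw [h2] at this
  have h3 : 0 ≤ (n+1) * A + (T (p+1) q - T (p+2) q) := by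
    by_contra h
    push Not at h
    have := mul_neg_of_pos_of_neg h1 h
    linarith
  nlinarith

theorem array_logconvex (T : ℕ → ℕ → ℝ) (hpos : ∀ p q, 0 ≤ T p q)
    (hadd : ∀ p q, T p q = T (p+1) q + T p (q+1)) (p q : ℕ) :
    T (p+1) q ^ 2 ≤ T p q * T (p+2) q := by
  rcases eq_or_lt_of_le (hpos p q) with h0 | h0
  · have h1 := hadd p q
    have h2 := hpos (p+1) q
    have h3 := hpos p (q+1)
    have : T (p+1) q = 0 := by linarith
    rw [this, ← h0]; simp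
  · have := array_quad' T hpos hadd (T (p+1) q / T p q) p q
    have h4 : T (p+2) q - 2*(T (p+1) q / T p q)*T (p+1) q + (T (p+1) q / T p q)^2*T p q
        = (T p q * T (p+2) q - T (p+1) q ^ 2) / T p q := by
      field_simp; ring
    rw [h4] at this
    have h5 := (div_nonneg_iff.mp this)
    rcases h5 with h | h
    · linarith [h.1]
    · linarith [h.2]

end Pool.Agent.Lib.MP12983e
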