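import Mathlib
import Pool.Agent.Lib.MP_12983e_an.Arr

/-! The contracting regime: `|x| = |a x| + |b x|` near `0`, with `a` and `b` commuting. -/

namespace Pool.Agent.Lib.MP12983e

structure Con (η : ℝ) (a b : ℝ → ℝ) : Prop where
  ca : Continuous a
  cb : Continuous b
  add : ∀ x, |x| < η → |x| = |a x| + |b x|
  ane : ∀ x, x ≠ 0 → |x| < η → a x ≠ 0
  bne : ∀ x, x ≠ 0 → |x| < η → b x ≠ 0
  comm : ∀ x, a (b x) = b (a x)

namespace Con

variable {η : ℝ} {a b : ℝ → ℝ}

theorem symm (h : Con η a b) : Con η b a where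
  ca := h.cb
  cb := h.ca
  add := fun x hx => by rw [h.add x hx]; ring
  ane := h.bne
  bne := h.ane
  comm := fun x => (h.comm x).symm

theorem commute (h : Con η a b) : Function.Commute a b := h.comm

theorem a_le (h : Con η a b) {x : ℝ} (hx : |x| < η) : |a x| ≤ |x| := by
  have := h.add x hx
  have := abs_nonneg (b x)
  linarith

theorem it_le (h : Con η a b) {x : ℝ} (hx : |x| < η) (m : ℕ) : |a^[m] x| ≤ |x| := by
  induction m with
  | zero => simp
  | succ m ih =>
    rw [Function.iterate_succ_apply']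
    exact (h.a_le (lt_of_le_of_lt ih hx)).trans ih

theorem it_lt (h : Con η a b) {x : ℝ} (hx : |x| < η) (m : ℕ) : |a^[m] x| < η :=
  lt_of_le_of_lt (h.it_le hx m) hx

theorem it_ne (h : Con η a b) {x : ℝ} (hx0 : x ≠ 0) (hx : |x| < η) (m : ℕ) : a^[m] x ≠ 0 := by
  induction m with
  | zero => simpa using hx0
  | succ m ih =>
    rw [Function.iterate_succ_apply']
    exact h.ane _ ih (h.it_lt hx m)

theorem abm (h : Con η a b) (m : ℕ) (x : ℝ) : b (a^[m] x) = a^[m] (b x) :=
  h.commute.symm.iterate_right m x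

theorem ambn (h : Con η a b) (m n : ℕ) (x : ℝ) : a^[m] (b^[n] x) = b^[n] (a^[m] x) :=
  h.commute.iterate_iterate m n x

/-- iterates become small -/
theorem small (h : Con η a b) {x : ℝ} (hx : |x| < η) {δ : ℝ} (hδ : 0 < δ) :
    ∃ M, |a^[M] x| < δ := by
  by_contra hcon
  push Not at hcon
  have hK : IsCompact (Metric.closedBall (0:ℝ) |x| ∩ {y | δ ≤ |y|}) :=
    (isCompact_closedBall _ _).inter_right (isClosed_le continuous_const continuous_abs)
  have hne : (Metric.closedBall (0:ℝ) |x| ∩ {y | δ ≤ |y|}).Nonempty :=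
    ⟨x, by simp, hcon 0⟩
  obtain ⟨y0, hy0, hmin⟩ := hK.exists_isMinOn hne (f := fun y => |b y|) (h.cb.abs.continuousOn)
  have hy0' : y0 ≠ 0 := by
    rintro rfl
    have := hy0.2
    rw [Set.mem_ofPred_eq, abs_zero] at this
    linarith
  have hy0'' : |y0| < η := by
    have := hy0.1
    rw [mem_closedBall_zero_iff, Real.norm_eq_abs] at this
    exact lt_of_le_of_lt this hx
  have hc : 0 < |b y0| := abs_pos.mpr (h.bne _ hy0' hy0'')
  have hb : ∀ m : ℕ, |a^[m] x| ≤ |x| - m * |b y0| := by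
    intro m
    induction m with
    | zero => simp
    | succ m ih =>
      have h1 := h.add (a^[m] x) (h.it_lt hx m)
      have h2 : |b y0| ≤ |b (a^[m] x)| := by
        apply hmin
        refine ⟨?_, hcon m⟩
        rw [mem_closedBall_zero_iff, Real.norm_eq_abs]
        exact h.it_le hx m
      rw [Function.iterate_succ_apply']
      push_cast
      linarith
  obtain ⟨n, hn⟩ := exists_nat_gt (|x| / |b y0|)
  rw [div_lt_iff₀ hc] at hn
  have := hb n
  have := abs_nonneg (a^[n] x)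
  linarith

/-- the ratio -/
noncomputable def rat (b : ℝ → ℝ) (x : ℝ) : ℝ := |b x| / |x|

theorem rat_nonneg (x : ℝ) : 0 ≤ rat b x := div_nonneg (abs_nonneg _) (abs_nonneg _)

theorem abs_eq {x : ℝ} (hx : x ≠ 0) : |b x| = rat b x * |x| := by
  unfold rat
  rw [div_mul_cancel₀ _ (abs_ne_zero.mpr hx)]

theorem rat_pos (h : Con η a b) {x : ℝ} (hx0 : x ≠ 0) (hx : |x| < η) : 0 < rat b x :=
  div_pos (abs_pos.mpr (h.bne _ hx0 hx)) (abs_pos.mpr hx0)

theorem rat_add (h : Con η a b) {x : ℝ} (hx0 : x ≠ 0) (hx : |x| < η) :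
    rat a x + rat b x = 1 := by
  unfold rat
  rw [← add_div, ← h.add x hx, div_self (abs_ne_zero.mpr hx0)]

theorem logconvex (h : Con η a b) {x : ℝ} (hx : |x| < η) : |a x| ^ 2 ≤ |x| * |a (a x)| := by
  let T : ℕ → ℕ → ℝ := fun k l => |a^[k] (b^[l] x)|
  have hT : ∀ p q, T p q = T (p+1) q + T p (q+1) := by
    intro p q
    have h1 : |a^[p] (b^[q] x)| < η := h.it_lt (h.symm.it_lt hx q) p
    have h2 := h.add _ h1
    show |a^[p] (b^[q] x)| = |a^[p+1] (b^[q] x)| + |a^[p] (b^[q+1] x)|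
    rw [Function.iterate_succ_apply', Function.iterate_succ_apply' b, ← h.abm]
    exact h2
  exact array_logconvex T (fun p q => abs_nonneg _) hT 0 0

theorem rat_a_le (h : Con η a b) {x : ℝ} (hx0 : x ≠ 0) (hx : |x| < η) :
    rat a x ≤ rat a (a x) := by
  have h1 := h.logconvex hx
  have hx' : 0 < |x| := abs_pos.mpr hx0
  have hax : 0 < |a x| := abs_pos.mpr (h.ane _ hx0 hx)
  unfold rat
  rw [div_le_div_iff₀ hx' hax]
  nlinarith

theorem rat_b_a_le (h : Con η a b) {x : ℝ} (hx0 : x ≠ 0) (hx : |x| < η) :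
    rat b (a x) ≤ rat b x := by
  have h1 := h.rat_a_le hx0 hx
  have h2 := h.rat_add hx0 hx
  have h3 := h.rat_add (h.ane _ hx0 hx) (lt_of_le_of_lt (h.a_le hx) hx)
  linarith

theorem rat_a_it (h : Con η a b) {x : ℝ} (hx0 : x ≠ 0) (hx : |x| < η) (m : ℕ) :
    rat a x ≤ rat a (a^[m] x) := by
  induction m with
  | zero => simp
  | succ m ih =>
    rw [Function.iterate_succ_apply']
    exact ih.trans (h.rat_a_le (h.it_ne hx0 hx m) (h.it_lt hx m))

theorem rat_b_it_a (h : Con η a b) {x : ℝ} (hx0 : x ≠ 0) (hx : |x| < η) (m : ℕ) :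
    rat b (a^[m] x) ≤ rat b x := by
  have h1 := h.rat_a_it hx0 hx m
  have h2 := h.rat_add hx0 hx
  have h3 := h.rat_add (h.it_ne hx0 hx m) (h.it_lt hx m)
  linarith

theorem lim1 (h : Con η a b) {x : ℝ} (hx0 : x ≠ 0) (hx : |x| < η) {c : ℝ}
    (hc : ∀ m, c ≤ rat b (b (a^[m] x))) : c ≤ rat b x := by
  rcases le_or_gt c 0 with hc0 | hc0
  · exact hc0.trans (rat_nonneg _)
  have hstep : ∀ m, |b (a^[m+1] x)| - c * |a^[m+1] x| ≤ |b (a^[m] x)| - c * |a^[m] x| := by
    intro m
    set y := a^[m] x with hy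
    have hy0 : y ≠ 0 := h.it_ne hx0 hx m
    have hyη : |y| < η := h.it_lt hx m
    have h1 := h.add y hyη
    have hbη : |b y| < η := lt_of_le_of_lt (h.symm.a_le hyη) hyη
    have h2 := h.add (b y) hbη
    rw [Function.iterate_succ_apply', ← hy, ← h.comm]
    have h3 : |b (b y)| = rat b (b y) * |b y| := abs_eq (h.bne _ hy0 hyη)
    have h4 := hc m
    rw [← hy] at h4
    have h5 := abs_nonneg (b y)
    nlinarith
  have hstep' : ∀ n, |b (a^[n] x)| - c * |a^[n] x| ≤ |b x| - c * |x| := by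
    intro n
    induction n with
    | zero => simp
    | succ n ih => exact (hstep n).trans ih
  have hfin : 0 ≤ |b x| - c * |x| := by
    by_contra hneg
    push Not at hneg
    obtain ⟨M, hM⟩ := h.small hx (show 0 < (-(|b x| - c * |x|))/c by
      apply div_pos _ hc0; linarith)
    have h1 := hstep' M
    have h2 := abs_nonneg (b (a^[M] x))
    rw [lt_div_iff₀ hc0] at hM
    nlinarith
  unfold rat
  rw [le_div_iff₀ (abs_pos.mpr hx0)]
  linarith

theorem limL (h : Con η a b) {x : ℝ} (hx0 : x ≠ 0) (hx : |x| < η) {c : ℝ} (l : ℕ)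
    (hc : ∀ m, c ≤ rat b (b^[l] (a^[m] x))) : ∀ m, c ≤ rat b (a^[m] x) := by
  induction l with
  | zero => simpa using hc
  | succ l ih =>
    apply ih
    intro m
    have hy0 : b^[l] (a^[m] x) ≠ 0 := h.symm.it_ne (h.it_ne hx0 hx m) (h.it_lt hx m) l
    have hyη : |b^[l] (a^[m] x)| < η := h.symm.it_lt (h.it_lt hx m) l
    apply h.lim1 hy0 hyη
    intro m'
    have := hc (m' + m)
    rw [Function.iterate_succ_apply', Function.iterate_add_apply, ← h.ambn] at this
    exact this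

theorem grow_ge (h : Con η a b) {y r : ℝ} (hy0 : y ≠ 0) (hy : |y| < η) (hr0 : 0 ≤ r)
    (hr : r ≤ rat a y) (k : ℕ) : r^k * |y| ≤ |a^[k] y| := by
  induction k with
  | zero => simp
  | succ k ih =>
    rw [Function.iterate_succ_apply', abs_eq (h.it_ne hy0 hy k)]
    have h1 := hr.trans (h.rat_a_it hy0 hy k)
    have h3 : 0 ≤ |a^[k] y| := abs_nonneg _
    calc r^(k+1) * |y| = r * (r^k*|y|) := by ring
      _ ≤ r * |a^[k] y| := mul_le_mul_of_nonneg_left ih hr0
      _ ≤ _ := mul_le_mul_of_nonneg_right h1 h3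

theorem grow_le (h : Con η a b) {y c : ℝ} (hy0 : y ≠ 0) (hy : |y| < η) (hc0 : 0 ≤ c) (k : ℕ)
    (hc : rat a (a^[k] y) ≤ c) : |a^[k] y| ≤ c^k * |y| := by
  induction k with
  | zero => simp
  | succ k ih =>
    have h1 : rat a (a^[k] y) ≤ c := by
      refine le_trans ?_ hc
      rw [Function.iterate_succ_apply']
      exact h.rat_a_le (h.it_ne hy0 hy k) (h.it_lt hy k)
    have h2 := ih h1
    rw [Function.iterate_succ_apply', abs_eq (h.it_ne hy0 hy k)]
    have h3 : 0 ≤ |a^[k] y| := abs_nonneg _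
    calc rat a (a^[k] y) * |a^[k] y| ≤ c * |a^[k] y| := mul_le_mul_of_nonneg_right h1 h3
      _ ≤ c * (c^k*|y|) := mul_le_mul_of_nonneg_left h2 hc0
      _ = _ := by ring

/-- comparison points -/
theorem cmp_point (h : Con η a b) {x : ℝ} (hx0 : x ≠ 0) (hx : |x| < η) {c : ℝ} (hc0 : 0 < c)
    (hc1 : c < 1) {k l : ℕ} (hkl : c^l < (1-c)^k) {m : ℕ} (hm : rat b (a^[m] x) < c) :
    ∃ M, ∀ M', M ≤ M' → |b^[l] (a^[M'] x)| < |a^[k] (a^[M'] x)| := by
  have hex : ∃ M, rat b (b^[l] (a^[M] x)) < c := by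
    by_contra hcon
    push Not at hcon
    have := h.limL hx0 hx l hcon m
    linarith
  obtain ⟨M, hM⟩ := hex
  refine ⟨M, fun M' hM' => ?_⟩
  obtain ⟨n, rfl⟩ := Nat.exists_eq_add_of_le hM'
  set y := a^[M+n] x with hy
  have hy0 : y ≠ 0 := h.it_ne hx0 hx _
  have hyη : |y| < η := h.it_lt hx _
  have h1 : rat b (b^[l] y) < c := by
    refine lt_of_le_of_lt ?_ hM
    have e1 : y = a^[n] (a^[M] x) := by
      rw [hy, Nat.add_comm, Function.iterate_add_apply]
    rw [e1, ← h.ambn]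
    exact h.rat_b_it_a (h.symm.it_ne (h.it_ne hx0 hx _) (h.it_lt hx _) _)
      (h.symm.it_lt (h.it_lt hx _) _) n
  have h2 : |b^[l] y| ≤ c^l * |y| := h.symm.grow_le hy0 hyη hc0.le l h1.le
  have h3 : rat b y ≤ c := (h.symm.rat_a_it hy0 hyη l).trans h1.le
  have h4 : 1 - c ≤ rat a y := by have := h.rat_add hy0 hyη; linarith
  have h5 := h.grow_ge hy0 hyη (by linarith) h4 k
  have h6 : 0 < |y| := abs_pos.mpr hy0
  have h7 := mul_lt_mul_of_pos_right hkl h6
  linarith

/-- constant-ratio points -/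
def SC (η : ℝ) (a b : ℝ → ℝ) (t : ℝ) : Prop :=
  t ≠ 0 ∧ |t| < η ∧ (∀ m : ℕ, rat b (a^[m] t) = rat b t) ∧ (∀ n : ℕ, rat b (b^[n] t) = rat b t)

theorem coincidence (h : Con η a b) {t : ℝ} (ht0 : t ≠ 0) (ht : |t| < η) {k l : ℕ}
    (hk : 1 ≤ k) (hl : 1 ≤ l) (e : b^[l] t = a^[k] t) : SC η a b t := by
  -- for every `n`: rat b (b^n t) <= rat b (b^{n+l} t) = rat b (a^k b^n t) <= rat b (b^n t)
  have hmono : ∀ {y : ℝ}, y ≠ 0 → |y| < η → ∀ n, rat b y ≤ rat b (b^[n] y) :=
    fun hy0 hy n => h.symm.rat_a_it hy0 hy n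
  refine ⟨ht0, ht, ?_, ?_⟩
  · intro m
    have h1 : ∀ j : ℕ, rat b (a^[j*k] t) = rat b t := by
      intro j
      apply le_antisymm (h.rat_b_it_a ht0 ht _)
      have e1 : a^[j*k] t = b^[j*l] t := by
        induction j with
        | zero => simp
        | succ j ih =>
          rw [Nat.succ_mul, Nat.succ_mul, Nat.add_comm, Function.iterate_add_apply, ih,
            h.ambn, ← e, ← Function.iterate_add_apply]
      rw [e1]
      exact hmono ht0 ht _
    apply le_antisymm (h.rat_b_it_a ht0 ht _)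
    have h2 : m ≤ m * k := Nat.le_mul_of_pos_right _ hk
    obtain ⟨n, hn⟩ := Nat.exists_eq_add_of_le h2
    rw [← h1 m, hn, Nat.add_comm, Function.iterate_add_apply]
    exact h.rat_b_it_a (h.it_ne ht0 ht _) (h.it_lt ht _) n
  · intro m
    have h1 : ∀ j : ℕ, rat b (b^[j*l] t) = rat b t := by
      intro j
      apply le_antisymm _ (hmono ht0 ht _)
      have e1 : b^[j*l] t = a^[j*k] t := by
        induction j with
        | zero => simp
        | succ j ih =>
          rw [Nat.succ_mul, Nat.succ_mul, Nat.add_comm, Function.iterate_add_apply, ih,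
            ← h.ambn, e, ← Function.iterate_add_apply]
      rw [e1]
      exact h.rat_b_it_a ht0 ht _
    apply le_antisymm _ (hmono ht0 ht _)
    have h2 : m ≤ m * l := Nat.le_mul_of_pos_right _ hl
    obtain ⟨n, hn⟩ := Nat.exists_eq_add_of_le h2
    rw [← h1 m, hn, Nat.add_comm, Function.iterate_add_apply]
    exact hmono (h.symm.it_ne ht0 ht _) (h.symm.it_lt ht _) n

theorem SC_b (h : Con η a b) {t : ℝ} (hS : SC η a b t) (n : ℕ) :
    |b^[n] t| = (rat b t)^n * |t| := by
  induction n with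
  | zero => simp
  | succ n ih =>
    rw [Function.iterate_succ_apply', abs_eq (h.symm.it_ne hS.1 hS.2.1 n), ih, hS.2.2.2 n]
    ring

theorem SC_a (h : Con η a b) {t : ℝ} (hS : SC η a b t) (n : ℕ) :
    |a^[n] t| = (1 - rat b t)^n * |t| := by
  induction n with
  | zero => simp
  | succ n ih =>
    have h1 := h.rat_add (h.it_ne hS.1 hS.2.1 n) (h.it_lt hS.2.1 n)
    rw [hS.2.2.1 n] at h1
    have h2 : rat a (a^[n] t) = 1 - rat b t := by linarith
    rw [Function.iterate_succ_apply', abs_eq (h.it_ne hS.1 hS.2.1 n), ih, h2]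
    ring

end Con

theorem v_lt {b c : ℝ} (hb : 0 < b) (hbc : b < c) (hc : c < 1) :
    Real.log c / Real.log (1-c) < Real.log b / Real.log (1-b) := by
  have hc0 : 0 < c := hb.trans hbc
  have h1 : Real.log (1-b) < 0 := Real.log_neg (by linarith) (by linarith)
  have h2 : Real.log (1-c) < 0 := Real.log_neg (by linarith) (by linarith)
  have h3 : Real.log (1-c) < Real.log (1-b) := Real.log_lt_log (by linarith) (by linarith)
  have h4 : Real.log c < 0 := Real.log_neg hc0 hc
  have h5 : Real.log b < Real.log c := Real.log_lt_log hb hbc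
  rw [← neg_div_neg_eq, ← neg_div_neg_eq (Real.log b), div_lt_div_iff₀ (by linarith) (by linarith)]
  nlinarith

theorem exists_type' {b c : ℝ} (hb : 0 < b) (hbc : b < c) (hc : c < 1) :
    ∃ k l : ℕ, 1 ≤ k ∧ 1 ≤ l ∧ b^(2*l) < (1-b)^k ∧ (1-c)^k < c^(2*l) := by
  have hc0 : 0 < c := hb.trans hbc
  have h1 : Real.log (1-b) < 0 := Real.log_neg (by linarith) (by linarith)
  have h2 : Real.log (1-c) < 0 := Real.log_neg (by linarith) (by linarith)
  have h4 : Real.log c < 0 := Real.log_neg hc0 hc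
  obtain ⟨q, hq1, hq2⟩ := exists_rat_btwn (v_lt hb hbc hc)
  have hq0 : (0:ℝ) < q := lt_trans (div_pos_of_neg_of_neg h4 h2) hq1
  have hq0' : 0 < q := by exact_mod_cast hq0
  have hnum : 0 < q.num := Rat.num_pos.mpr hq0'
  have hqe : (q:ℝ) = (q.num.toNat : ℝ) / (q.den : ℝ) := by
    have : (q.num.toNat : ℤ) = q.num := Int.toNat_of_nonneg hnum.le
    have h5 : ((q.num.toNat : ℤ) : ℝ) = (q.num : ℝ) := by rw [this]
    have h6 : ((q.num.toNat : ℕ) : ℝ) = (q.num : ℝ) := by rw [← h5]; norm_cast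
    rw [h6]
    exact_mod_cast (Rat.num_div_den q).symm
  have hden : (0:ℝ) < q.den := by exact_mod_cast q.den_pos
  refine ⟨2*q.num.toNat, q.den, by omega, q.den_pos, ?_, ?_⟩
  · rw [← Real.log_lt_log_iff (by positivity) (by apply pow_pos; linarith), Real.log_pow,
      Real.log_pow]
    rw [hqe, ← neg_div_neg_eq (Real.log b), div_lt_div_iff₀ hden (by linarith)] at hq2
    push_cast
    nlinarith
  · rw [← Real.log_lt_log_iff (by apply pow_pos; linarith) (by positivity), Real.log_pow,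
      Real.log_pow]
    rw [hqe, ← neg_div_neg_eq (Real.log c), div_lt_div_iff₀ (by linarith) hden] at hq1
    push_cast
    nlinarith

end Pool.Agent.Lib.MP12983e
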