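import Mathlib
import Pool.Agent.Lib.MP_12983e_an.Contract

/-! The contracting regime: `f` is linear. -/

namespace Pool.Agent.Lib.MP12983e

theorem pow_contra {σ s C1 C2 : ℝ} (hσ : 0 < σ) (hs : σ < s) (hC1 : 0 < C1)
    (h : ∀ N : ℕ, s^N * C1 < σ^N * C2) : False := by
  obtain ⟨N, hN⟩ := pow_unbounded_of_one_lt (C2 / C1) ((one_lt_div hσ).mpr hs)
  have h1 := h N
  rw [div_pow, div_lt_div_iff₀ hC1 (by positivity)] at hN
  linarith

section

variable {f : ℝ → ℝ} {η : ℝ}

/-- the hypotheses of the contracting regime -/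
structure CR (f : ℝ → ℝ) (η : ℝ) : Prop where
  cont : Continuous f
  eq : ∀ x, f (x + f x) = f x + f (f x)
  f0 : f 0 = 0
  hη : 0 < η
  hp : ∀ x, 0 < x → x < η → f x < 0 ∧ 0 < x + f x
  hn : ∀ x, -η < x → x < 0 → 0 < f x ∧ x + f x < 0

namespace CR

theorem con (h : CR f η) : Con η (fun x => x + f x) f where
  ca := continuous_id.add h.cont
  cb := h.cont
  add := by
    intro x hx
    rw [abs_lt] at hx
    rcases lt_trichotomy x 0 with h0 | h0 | h0
    · have := h.hn x hx.1 h0
      rw [abs_of_neg h0, abs_of_neg this.2, abs_of_pos this.1]; ring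
    · rw [h0]; simp [h.f0]
    · have := h.hp x h0 hx.2
      rw [abs_of_pos h0, abs_of_pos this.2, abs_of_neg this.1]; ring
  ane := by
    intro x h0 hx
    rw [abs_lt] at hx
    rcases lt_or_gt_of_ne h0 with h0 | h0
    · exact (h.hn x hx.1 h0).2.ne
    · exact (h.hp x h0 hx.2).2.ne'
  bne := by
    intro x h0 hx
    rw [abs_lt] at hx
    rcases lt_or_gt_of_ne h0 with h0 | h0
    · exact (h.hn x hx.1 h0).1.ne'
    · exact (h.hp x h0 hx.2).1.ne
  comm := fun x => (h.eq x).symm

theorem gpos (h : CR f η) {x : ℝ} (h0 : 0 < x) (hx : x < η) (m : ℕ) :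
    0 < (fun x => x + f x)^[m] x := by
  induction m with
  | zero => simpa using h0
  | succ m ih =>
    rw [Function.iterate_succ_apply']
    have h1 := h.con.it_lt (x := x) (by rw [abs_of_pos h0]; exact hx) m
    rw [abs_of_pos ih] at h1
    exact (h.hp _ ih h1).2

theorem fpos (h : CR f η) {x : ℝ} (h0 : 0 < x) (hx : x < η) (m : ℕ) :
    0 < f^[2*m] x := by
  induction m with
  | zero => simpa using h0
  | succ m ih =>
    have e : 2 * (m+1) = 2*m + 1 + 1 := by ring
    rw [e, Function.iterate_succ_apply', Function.iterate_succ_apply']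
    have h1 := h.con.symm.it_lt (x := x) (by rw [abs_of_pos h0]; exact hx) (2*m)
    rw [abs_of_pos ih] at h1
    have h2 := (h.hp _ ih h1)
    exact (h.hn _ (by linarith) h2.1).1

theorem exists_SC (h : CR f η) : ∃ t, 0 < t ∧ t < η ∧ Con.SC η (fun x => x + f x) f t := by
  set g := (fun x => x + f x) with hg
  have hc := h.con
  rw [← hg] at hc
  set x0 := η/2 with hx0
  have h0 : 0 < x0 := by rw [hx0]; linarith [h.hη]
  have h1 : x0 < η := by rw [hx0]; linarith [h.hη]
  have ha : |x0| < η := by rw [abs_of_pos h0]; exact h1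
  by_cases hcase : ∀ m n : ℕ, Con.rat f (f^[n] x0) ≤ Con.rat f (g^[m] x0)
  · refine ⟨x0, h0, h1, h0.ne', ha, ?_, ?_⟩
    · intro m
      apply le_antisymm (hc.rat_b_it_a h0.ne' ha m)
      have := hcase m 0
      simpa using this
    · intro n
      apply le_antisymm _ (hc.symm.rat_a_it h0.ne' ha n)
      have := hcase 0 n
      simpa using this
  · push Not at hcase
    obtain ⟨m, n, hmn⟩ := hcase
    set p := Con.rat f (g^[m] x0) with hp
    set q := Con.rat f (f^[n] x0) with hq
    have hp0 : 0 ≤ p := Con.rat_nonneg _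
    have hq1 : q < 1 := by
      have h2 := hc.rat_add (hc.symm.it_ne h0.ne' ha n) (hc.symm.it_lt ha n)
      have h3 := hc.symm.rat_pos (hc.symm.it_ne h0.ne' ha n) (hc.symm.it_lt ha n)
      rw [← hq] at h2
      linarith
    set c := (2*p+q)/3 with hcdef
    set c' := (p+2*q)/3 with hc'def
    have c1 : p < c := by rw [hcdef]; linarith
    have c2 : c < c' := by rw [hcdef, hc'def]; linarith
    have c3 : c' < q := by rw [hc'def]; linarith
    have c0 : 0 < c := by rw [hcdef]; linarith
    obtain ⟨k, l, hk, hl, e1, e2⟩ := exists_type' c0 c2 (by linarith)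
    obtain ⟨M, hM⟩ := hc.cmp_point h0.ne' ha c0 (by linarith) e1 (m := m) c1
    have e2' : (1-c')^k < (1-(1-c'))^(2*l) := by
      have : 1 - (1 - c') = c' := by ring
      rw [this]; exact e2
    have hn' : Con.rat g (f^[n] x0) < 1 - c' := by
      have h2 := hc.rat_add (hc.symm.it_ne h0.ne' ha n) (hc.symm.it_lt ha n)
      rw [← hq] at h2
      linarith
    obtain ⟨M2, hM2⟩ := hc.symm.cmp_point h0.ne' ha (by linarith) (by linarith) e2' (m := n) hn'
    set y := g^[M] x0 with hy
    set y' := f^[2*M2] x0 with hy'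
    have a1 := hM M le_rfl
    have a2 := hM2 (2*M2) (by omega)
    rw [← hy] at a1
    rw [← hy'] at a2
    have ypos : 0 < y := h.gpos h0 h1 M
    have y'pos : 0 < y' := h.fpos h0 h1 M2
    have ylt : y < η := by
      have := hc.it_lt ha M
      rwa [← hy, abs_of_pos ypos] at this
    have y'lt : y' < η := by
      have := hc.symm.it_lt ha (2*M2)
      rwa [← hy', abs_of_pos y'pos] at this
    have hcts : Continuous (fun t => |f^[2*l] t| - |g^[k] t|) :=
      (hc.cb.iterate _).abs.sub (hc.ca.iterate _).abs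
    have hmem : (0:ℝ) ∈ Set.uIcc (|f^[2*l] y| - |g^[k] y|) (|f^[2*l] y'| - |g^[k] y'|) := by
      rw [Set.mem_uIcc]; left; constructor <;> linarith
    obtain ⟨t, ht, ht0⟩ := intermediate_value_uIcc (a := y) (b := y') hcts.continuousOn hmem
    have htpos : 0 < t := by
      rw [Set.mem_uIcc] at ht
      rcases ht with ht | ht <;> linarith [ht.1]
    have htlt : t < η := by
      rw [Set.mem_uIcc] at ht
      rcases ht with ht | ht <;> linarith [ht.2]
    have habs : |f^[2*l] t| = |g^[k] t| := by simpa [sub_eq_zero] using ht0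
    have heq : f^[2*l] t = g^[k] t := by
      rw [abs_of_pos (h.fpos htpos htlt l), abs_of_pos (h.gpos htpos htlt k)] at habs
      exact habs
    have hta : |t| < η := by rw [abs_of_pos htpos]; exact htlt
    exact ⟨t, htpos, htlt, hc.coincidence htpos.ne' hta hk (by omega) heq⟩

theorem inj_g (h : CR f η) {x x' : ℝ} (hx : |x| < η) (hx' : |x'| < η)
    (e : x + f x = x' + f x') : x = x' := by
  have hc := h.con
  have key : ∀ n : ℕ, |f^[n] x' - f^[n] x| = |x' - x| := by
    intro n
    induction n with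
    | zero => simp
    | succ n ih =>
      have h1 : f^[n] x + f (f^[n] x) = f^[n] x' + f (f^[n] x') := by
        have e1 := hc.symm.abm n x
        have e2 := hc.symm.abm n x'
        rw [e1, e2, e]
      rw [Function.iterate_succ_apply', Function.iterate_succ_apply']
      have h2 : f (f^[n] x') - f (f^[n] x) = -(f^[n] x' - f^[n] x) := by linarith
      rw [h2, abs_neg, ih]
  by_contra hne
  have hpos : 0 < |x' - x| := abs_pos.mpr (sub_ne_zero.mpr (fun h => hne h.symm))
  obtain ⟨M, hM⟩ := hc.symm.small hx (show 0 < |x' - x|/2 by linarith)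
  obtain ⟨M', hM'⟩ := hc.symm.small hx' (show 0 < |x' - x|/2 by linarith)
  have h1 := key (M + M')
  have h2 : |f^[M+M'] x| < |x' - x|/2 := by
    rw [Nat.add_comm, Function.iterate_add_apply]
    exact lt_of_le_of_lt (hc.symm.it_le (hc.symm.it_lt hx M) M') hM
  have h3 : |f^[M+M'] x'| < |x' - x|/2 := by
    rw [Function.iterate_add_apply]
    exact lt_of_le_of_lt (hc.symm.it_le (hc.symm.it_lt hx' M') M) hM'
  have h4 := abs_sub (f^[M+M'] x') (f^[M+M'] x)
  linarith

theorem inj_f (h : CR f η) {x x' : ℝ} (hx : |x| < η) (hx' : |x'| < η)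
    (e : f x = f x') : x = x' := by
  have hc := h.con
  set g := (fun x => x + f x) with hg
  have key : ∀ n : ℕ, g^[n] x' - g^[n] x = x' - x := by
    intro n
    induction n with
    | zero => simp
    | succ n ih =>
      have h1 : f (g^[n] x) = f (g^[n] x') := by
        rw [hc.abm n x, hc.abm n x', e]
      rw [Function.iterate_succ_apply', Function.iterate_succ_apply']
      show g^[n] x' + f (g^[n] x') - (g^[n] x + f (g^[n] x)) = x' - x
      rw [h1]; linarith
  by_contra hne
  have hpos : 0 < |x' - x| := abs_pos.mpr (sub_ne_zero.mpr (fun h => hne h.symm))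
  obtain ⟨M, hM⟩ := hc.small hx (show 0 < |x' - x|/2 by linarith)
  obtain ⟨M', hM'⟩ := hc.small hx' (show 0 < |x' - x|/2 by linarith)
  have h1 := key (M + M')
  have h2 : |g^[M+M'] x| < |x' - x|/2 := by
    rw [Nat.add_comm, Function.iterate_add_apply]
    exact lt_of_le_of_lt (hc.it_le (hc.it_lt hx M) M') hM
  have h3 : |g^[M+M'] x'| < |x' - x|/2 := by
    rw [Function.iterate_add_apply]
    exact lt_of_le_of_lt (hc.it_le (hc.it_lt hx' M') M) hM'
  have h4 := abs_sub (g^[M+M'] x') (g^[M+M'] x)
  rw [h1] at h4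
  linarith

theorem mono_g (h : CR f η) {x y : ℝ} (hx : 0 < x) (hxy : x < y) (hy : y < η) :
    x + f x < y + f y := by
  have h1 : StrictMonoOn (fun x => x + f x) (Set.Icc 0 y) := by
    apply ContinuousOn.strictMonoOn_of_injOn_Icc (by linarith)
    · show 0 + f 0 ≤ y + f y
      rw [h.f0]
      linarith [(h.hp y (by linarith) hy).2]
    · exact h.con.ca.continuousOn
    · intro a ha b hb hab
      apply h.inj_g _ _ hab
      · rw [abs_of_nonneg ha.1]; linarith [ha.2]
      · rw [abs_of_nonneg hb.1]; linarith [hb.2]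
  exact h1 ⟨hx.le, hxy.le⟩ ⟨by linarith, le_rfl⟩ hxy

theorem mono_ff (h : CR f η) {x y : ℝ} (hx : 0 < x) (hxy : x < y) (hy : y < η) :
    f (f x) < f (f y) := by
  have h1 : StrictMonoOn (fun x => f (f x)) (Set.Icc 0 y) := by
    apply ContinuousOn.strictMonoOn_of_injOn_Icc (by linarith)
    · show f (f 0) ≤ f (f y)
      rw [h.f0, h.f0]
      have := h.fpos (x := y) (by linarith) hy 1
      simpa using this.le
    · exact (h.cont.comp h.cont).continuousOn
    · intro a ha b hb hab
      have ha' : |a| < η := by rw [abs_of_nonneg ha.1]; linarith [ha.2]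
      have hb' : |b| < η := by rw [abs_of_nonneg hb.1]; linarith [hb.2]
      apply h.inj_f ha' hb'
      apply h.inj_f _ _ hab
      · exact lt_of_le_of_lt (h.con.symm.a_le ha') ha'
      · exact lt_of_le_of_lt (h.con.symm.a_le hb') hb'
  exact h1 ⟨hx.le, hxy.le⟩ ⟨by linarith, le_rfl⟩ hxy

theorem mono_itg (h : CR f η) {x y : ℝ} (hx : 0 < x) (hxy : x < y) (hy : y < η) (n : ℕ) :
    (fun x => x + f x)^[n] x < (fun x => x + f x)^[n] y := by
  induction n with
  | zero => simpa using hxy
  | succ n ih =>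
    rw [Function.iterate_succ_apply', Function.iterate_succ_apply']
    have h1 := h.gpos hx (hxy.trans hy) n
    have h2 := h.gpos (hx.trans hxy) hy n
    have h3 := h.con.it_lt (x := y) (by rw [abs_of_pos (hx.trans hxy)]; exact hy) n
    rw [abs_of_pos h2] at h3
    exact h.mono_g h1 ih h3

theorem mono_itf (h : CR f η) {x y : ℝ} (hx : 0 < x) (hxy : x < y) (hy : y < η) (n : ℕ) :
    f^[2*n] x < f^[2*n] y := by
  induction n with
  | zero => simpa using hxy
  | succ n ih =>
    have e : 2 * (n+1) = 2*n + 1 + 1 := by ring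
    rw [e, Function.iterate_succ_apply', Function.iterate_succ_apply',
      Function.iterate_succ_apply', Function.iterate_succ_apply']
    have h1 := h.fpos hx (hxy.trans hy) n
    have h2 := h.fpos (hx.trans hxy) hy n
    have h3 := h.con.symm.it_lt (x := y) (by rw [abs_of_pos (hx.trans hxy)]; exact hy) (2*n)
    rw [abs_of_pos h2] at h3
    exact h.mono_ff h1 ih h3

theorem rat_const (h : CR f η) {t : ℝ} (ht : 0 < t) (htη : t < η)
    (hS : Con.SC η (fun x => x + f x) f t) {y : ℝ} (hy : 0 < y) (hyη : y < η) :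
    Con.rat f y = Con.rat f t := by
  have hc := h.con
  set g := (fun x => x + f x) with hg
  have ya : |y| < η := by rw [abs_of_pos hy]; exact hyη
  have ta : |t| < η := by rw [abs_of_pos ht]; exact htη
  set β := Con.rat f t with hβ
  have hβ0 : 0 < β := hc.rat_pos ht.ne' ta
  have hσ0 : 0 < 1 - β := by
    have h1 := hc.rat_add ht.ne' ta
    have h2 := hc.symm.rat_pos ht.ne' ta
    rw [← hβ] at h1; linarith
  apply le_antisymm
  · by_contra hlt
    push Not at hlt
    set r := Con.rat f y with hr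
    have hr0 : 0 < r := hβ0.trans hlt
    obtain ⟨M, hM⟩ := hc.symm.small ya ht
    have h1 : f^[2*M] y < t := by
      have e : 2*M = M + M := by ring
      have : |f^[2*M] y| < t := by
        rw [e, Function.iterate_add_apply]
        exact lt_of_le_of_lt (hc.symm.it_le (hc.symm.it_lt ya M) M) hM
      rwa [abs_of_pos (h.fpos hy hyη M)] at this
    have h2 := h.fpos hy hyη M
    apply pow_contra (σ := β^2) (s := r^2) (C1 := r^(2*M) * y) (C2 := t) (by positivity)
      (by nlinarith) (by positivity)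
    intro N
    have h3 := h.mono_itf h2 h1 htη N
    have h4 := hc.SC_b hS (2*N)
    rw [abs_of_pos (h.fpos ht htη N), abs_of_pos ht, ← hβ] at h4
    have h5 := hc.symm.grow_ge hy.ne' ya hr0.le le_rfl (2*N + 2*M)
    rw [abs_of_pos hy, Function.iterate_add_apply] at h5
    have h6 : 0 < f^[2*N] (f^[2*M] y) := by
      apply h.fpos h2 (h1.trans htη)
    rw [abs_of_pos h6] at h5
    calc (r^2)^N * (r^(2*M) * y) = r^(2*N+2*M) * y := by ring
      _ ≤ _ := h5
      _ < f^[2*N] t := h3
      _ = β^(2*N) * t := h4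
      _ = _ := by ring
  · by_contra hlt
    push Not at hlt
    set s := Con.rat g y with hs
    have hs1 : s = 1 - Con.rat f y := by have := hc.rat_add hy.ne' ya; linarith
    have hs0 : 1 - β < s := by rw [hs1]; linarith
    obtain ⟨M, hM⟩ := hc.small ya ht
    have h2 := h.gpos hy hyη M
    rw [abs_of_pos h2] at hM
    have hs2 : 0 < s := hσ0.trans hs0
    apply pow_contra (σ := 1 - β) (s := s) (C1 := s^M * y) (C2 := t) hσ0 hs0 (by positivity)
    intro N
    have h3 := h.mono_itg h2 hM htη N
    have h4 := hc.SC_a hS N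
    rw [abs_of_pos (h.gpos ht htη N), abs_of_pos ht, ← hβ] at h4
    have h5 := hc.grow_ge hy.ne' ya (hσ0.trans hs0).le le_rfl (N + M)
    rw [abs_of_pos hy, Function.iterate_add_apply] at h5
    have h6 : 0 < g^[N] (g^[M] y) := h.gpos h2 (hM.trans htη) N
    rw [abs_of_pos h6] at h5
    calc s^N * (s^M * y) = s^(N+M) * y := by ring
      _ ≤ _ := h5
      _ < g^[N] t := h3
      _ = _ := h4

/-- linearity near zero on the right -/
theorem linear_right (h : CR f η) : ∃ β, 0 < β ∧ β < 1 ∧ ∀ y, 0 < y → y < η → f y = -(β * y) := by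
  obtain ⟨t, ht, htη, hS⟩ := h.exists_SC
  have hc := h.con
  have ta : |t| < η := by rw [abs_of_pos ht]; exact htη
  refine ⟨Con.rat f t, hc.rat_pos ht.ne' ta, ?_, ?_⟩
  · have h1 := hc.rat_add ht.ne' ta
    have h2 := hc.symm.rat_pos ht.ne' ta
    linarith
  · intro y hy hyη
    have h1 := h.rat_const ht htη hS hy hyη
    have h2 := Con.abs_eq (b := f) hy.ne'
    rw [h1, abs_of_pos hy, abs_of_neg (h.hp y hy hyη).1] at h2
    linarith

end CR

end

/-- extension of linearity with slope in `(-1,0)` -/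
theorem extend_neg {f : ℝ → ℝ} (hf : Continuous f) (he : ∀ x, f (x + f x) = f x + f (f x))
    {β r : ℝ} (hβ0 : 0 < β) (hβ1 : β < 1) (hr : 0 < r) (hl : ∀ x, |x| ≤ r → f x = -(β * x)) :
    ∀ x, f x = -(β * x) := by
  -- key local step
  have step : ∀ M x, (∀ y, |y| < M → f y = -(β * y)) → |f x| < M → |x + f x| < M →
      f x = -(β * x) := by
    intro M x hM h1 h2
    have e1 := hM _ h1
    have e2 := hM _ h2
    have e3 := he x
    rw [e1, e2] at e3
    linarith
  by_contra hcon
  push Not at hcon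
  obtain ⟨x0, hx0⟩ := hcon
  set A : Set ℝ := {s | ∃ y, |y| = s ∧ f y ≠ -(β * y)} with hA
  have hAne : A.Nonempty := ⟨|x0|, x0, rfl, hx0⟩
  have hAbd : BddBelow A := ⟨0, by rintro _ ⟨y, rfl, _⟩; exact abs_nonneg _⟩
  set M := sInf A with hM
  have hMr : r ≤ M := by
    apply le_csInf hAne
    rintro _ ⟨y, rfl, hy⟩
    by_contra hlt
    push Not at hlt
    exact hy (hl y hlt.le)
  have hM0 : 0 < M := lt_of_lt_of_le hr hMr
  have hlt : ∀ y, |y| < M → f y = -(β * y) := by
    intro y hy
    by_contra hne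
    have : M ≤ |y| := csInf_le hAbd ⟨y, rfl, hne⟩
    linarith
  have hbd : ∀ y, |y| = M → f y = -(β * y) := by
    intro y hy
    have hy0 : y ≠ 0 := by
      rintro rfl
      rw [abs_zero] at hy; linarith
    -- limit of s*y, s -> 1-
    have h1 : Filter.Tendsto (fun s : ℝ => f (s * y)) (nhdsWithin 1 (Set.Iio 1)) (nhds (f y)) := by
      have : Continuous (fun s : ℝ => f (s * y)) := hf.comp (by fun_prop)
      have h2 := (this.tendsto 1).mono_left (nhdsWithin_le_nhds (s := Set.Iio 1))
      simpa using h2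
    have h3 : Filter.Tendsto (fun s : ℝ => -(β * (s * y))) (nhdsWithin 1 (Set.Iio 1))
        (nhds (-(β * y))) := by
      have : Continuous (fun s : ℝ => -(β * (s * y))) := by fun_prop
      have h2 := (this.tendsto 1).mono_left (nhdsWithin_le_nhds (s := Set.Iio 1))
      simpa using h2
    have h4 : (fun s : ℝ => f (s * y)) =ᶠ[nhdsWithin 1 (Set.Iio 1)]
        (fun s : ℝ => -(β * (s * y))) := by
      have h5 : ∀ᶠ s : ℝ in nhdsWithin 1 (Set.Iio 1), 0 < s :=
        (lt_mem_nhds (zero_lt_one)).filter_mono nhdsWithin_le_nhds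
      filter_upwards [h5, self_mem_nhdsWithin] with s hs1 hs2
      apply hlt
      rw [abs_mul, hy, abs_of_pos hs1]
      have : s < 1 := hs2
      nlinarith
    exact tendsto_nhds_unique (h1.congr' h4) h3
  -- openness at the boundary points
  have hopen : ∀ y, |y| = M → ∀ᶠ x in nhds y, f x = -(β * x) := by
    intro y hy
    have e := hbd y hy
    have h1 : |f y| < M := by
      rw [e, abs_neg, abs_mul, hy, abs_of_pos hβ0]; nlinarith
    have h2 : |y + f y| < M := by
      have : y + f y = (1-β) * y := by rw [e]; ring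
      rw [this, abs_mul, hy, abs_of_pos (by linarith)]; nlinarith
    have c1 : ∀ᶠ x in nhds y, |f x| < M := (hf.abs.tendsto y).eventually (gt_mem_nhds h1)
    have c2 : ∀ᶠ x in nhds y, |x + f x| < M :=
      ((continuous_id.add hf).abs.tendsto y).eventually (gt_mem_nhds h2)
    filter_upwards [c1, c2] with x hx1 hx2
    exact step M x hlt hx1 hx2
  obtain ⟨δ1, hδ1, hb1⟩ := Metric.eventually_nhds_iff.mp (hopen M (abs_of_pos hM0))
  obtain ⟨δ2, hδ2, hb2⟩ := Metric.eventually_nhds_iff.mp (hopen (-M) (by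
    rw [abs_neg, abs_of_pos hM0]))
  obtain ⟨s, ⟨y, rfl, hy⟩, hs⟩ := exists_lt_of_csInf_lt hAne
    (show M < M + min δ1 δ2 by linarith [lt_min hδ1 hδ2])
  have hyM : M ≤ |y| := csInf_le hAbd ⟨y, rfl, hy⟩
  apply hy
  rcases le_or_gt 0 y with h0 | h0
  · apply hb1
    rw [abs_of_nonneg h0] at hs hyM
    rw [Real.dist_eq, abs_lt]
    have := min_le_left δ1 δ2
    constructor <;> linarith
  · apply hb2
    rw [abs_of_neg h0] at hs hyM
    rw [Real.dist_eq, abs_lt]
    have := min_le_right δ1 δ2
    constructor <;> linarith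

/-- the contracting regime -/
theorem contract_linear {f : ℝ → ℝ} {η : ℝ} (h : CR f η) : ∃ a : ℝ, ∀ x, f x = a * x := by
  obtain ⟨β, hβ0, hβ1, hl⟩ := h.linear_right
  have key : ∀ x, |x| ≤ (β * η)/2 → f x = -(β * x) := by
    intro x hx
    rcases lt_trichotomy x 0 with h0 | h0 | h0
    · -- x = f y with y = -x/β
      set y := -x/β with hy
      have hy0 : 0 < y := div_pos (by linarith) hβ0
      have hyη : y < η := by
        rw [hy, div_lt_iff₀ hβ0]
        rw [abs_of_neg h0] at hx
        have := mul_pos hβ0 h.hη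
        linarith
      have e1 : f y = x := by
        rw [hl y hy0 hyη, hy]; field_simp
      have e2 := h.eq y
      have e3 : y + f y = (1-β) * y := by rw [hl y hy0 hyη]; ring
      have e4 : f (y + f y) = -(β * ((1-β)*y)) := by
        rw [e3]
        apply hl
        · apply mul_pos (by linarith) hy0
        · nlinarith
      rw [e4, e1] at e2
      have e5 : β * y = -x := by rw [hy]; field_simp
      nlinarith
    · rw [h0, h.f0]; ring
    · apply hl x h0
      rw [abs_of_pos h0] at hx
      have := h.hη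
      nlinarith
  refine ⟨-β, fun x => ?_⟩
  rw [extend_neg h.cont h.eq hβ0 hβ1 (r := (β*η)/2) (by have := mul_pos hβ0 h.hη; linarith) key x]
  ring

end Pool.Agent.Lib.MP12983e
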