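import Mathlib
import Pool.Agent.Lib.MP_12983e_an.Arr

/-! The expanding regime: `E x = ε x + H x`, `E` and `H` commute and `H` multiplies signs by `ε`. -/

namespace Pool.Agent.Lib.MP12983e

structure EH (ε : ℝ) (E H : ℝ → ℝ) : Prop where
  hε : ε = 1 ∨ ε = -1
  cont : Continuous H
  H0 : H 0 = 0
  sgn : ∀ x, x ≠ 0 → 0 < ε * x * H x
  hE : ∀ x, E x = ε * x + H x
  comm : ∀ x, E (H x) = H (E x)

namespace EH

variable {ε : ℝ} {E H : ℝ → ℝ}

theorem εsq (h : EH ε E H) : ε * ε = 1 := by
  rcases h.hε with h | h <;> rw [h] <;> norm_num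

theorem contE (h : EH ε E H) : Continuous E := by
  have : E = fun x => ε * x + H x := funext h.hE
  rw [this]
  exact (continuous_const.mul continuous_id).add h.cont

theorem E0 (h : EH ε E H) : E 0 = 0 := by rw [h.hE, h.H0]; ring

theorem H_ne (h : EH ε E H) {x : ℝ} (hx : x ≠ 0) : H x ≠ 0 := by
  intro h0
  have := h.sgn x hx
  rw [h0] at this; simp at this

theorem sgnE (h : EH ε E H) {x : ℝ} (hx : x ≠ 0) : 0 < ε * x * E x := by
  rw [h.hE]
  have h1 := h.sgn x hx
  have h2 := h.εsq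
  have h3 : 0 < x * x := mul_self_pos.mpr hx
  have : ε * x * (ε * x + H x) = (ε * ε) * (x * x) + ε * x * H x := by ring
  rw [this, h2]; linarith

theorem E_ne (h : EH ε E H) {x : ℝ} (hx : x ≠ 0) : E x ≠ 0 := by
  intro h0
  have := h.sgnE hx
  rw [h0] at this; simp at this

theorem absE (h : EH ε E H) (x : ℝ) : |E x| = |x| + |H x| := by
  rcases eq_or_ne x 0 with rfl | hx
  · rw [h.E0, h.H0]; simp
  · have h1 := h.sgn x hx
    have h2 : |ε| = 1 := by rcases h.hε with h | h <;> rw [h] <;> norm_num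
    rw [h.hE]
    have h3 : |ε * x| = |x| := by rw [abs_mul, h2, one_mul]
    rw [← h3]
    rcases lt_or_gt_of_ne (show ε * x ≠ 0 by
      intro h0; rw [h0] at h1; simp at h1) with h4 | h4
    · have h5 : H x < 0 := by
        by_contra h6
        push Not at h6
        have := mul_nonpos_of_nonpos_of_nonneg h4.le h6
        linarith
      rw [abs_of_neg h4, abs_of_neg h5, abs_of_neg (by linarith)]; ring
    · have h5 : 0 < H x := by
        by_contra h6
        push Not at h6
        have := mul_nonpos_of_nonneg_of_nonpos h4.le h6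
        linarith
      rw [abs_of_pos h4, abs_of_pos h5, abs_of_pos (by linarith)]

theorem commute (h : EH ε E H) : Function.Commute E H := h.comm

theorem itE_ne (h : EH ε E H) {x : ℝ} (hx : x ≠ 0) (m : ℕ) : E^[m] x ≠ 0 := by
  induction m with
  | zero => simpa using hx
  | succ m ih => rw [Function.iterate_succ_apply']; exact h.E_ne ih

theorem itH_ne (h : EH ε E H) {x : ℝ} (hx : x ≠ 0) (m : ℕ) : H^[m] x ≠ 0 := by
  induction m with
  | zero => simpa using hx
  | succ m ih => rw [Function.iterate_succ_apply']; exact h.H_ne ih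

theorem surjE (h : EH ε E H) : Function.Surjective E := by
  intro z
  rcases eq_or_ne z 0 with rfl | hz
  · exact ⟨0, h.E0⟩
  · have hεz : ε * z ≠ 0 := by
      apply mul_ne_zero _ hz
      rcases h.hε with h | h <;> rw [h] <;> norm_num
    have h1 := h.sgn (ε * z) hεz
    have h2 : ε * (ε * z) * H (ε * z) = z * H (ε * z) := by
      rw [← mul_assoc, h.εsq, one_mul]
    rw [h2] at h1
    have h3 : E (ε * z) = z + H (ε * z) := by
      rw [h.hE, ← mul_assoc, h.εsq, one_mul]
    have h4 : z ∈ Set.uIcc (E 0) (E (ε * z)) := by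
      rw [h.E0, h3, Set.mem_uIcc]
      rcases lt_or_gt_of_ne hz with hz' | hz'
      · right
        have : H (ε * z) < 0 := by
          by_contra h6
          push Not at h6
          have := mul_nonpos_of_nonpos_of_nonneg hz'.le h6
          linarith
        constructor <;> linarith
      · left
        have : 0 < H (ε * z) := by
          by_contra h6
          push Not at h6
          have := mul_nonpos_of_nonneg_of_nonpos hz'.le h6
          linarith
        constructor <;> linarith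
    have h5 := intermediate_value_uIcc (a := 0) (b := ε * z) (f := E) h.contE.continuousOn h4
    obtain ⟨y, _, hy⟩ := h5
    exact ⟨y, hy⟩

/-- the ratio `γ x = |H x| / |x|` -/
noncomputable def gam (H : ℝ → ℝ) (x : ℝ) : ℝ := |H x| / |x|

theorem gam_nonneg (x : ℝ) : 0 ≤ gam H x := div_nonneg (abs_nonneg _) (abs_nonneg _)

theorem gam_pos (h : EH ε E H) {x : ℝ} (hx : x ≠ 0) : 0 < gam H x :=
  div_pos (abs_pos.mpr (h.H_ne hx)) (abs_pos.mpr hx)

theorem absH_eq {x : ℝ} (hx : x ≠ 0) : |H x| = gam H x * |x| := by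
  unfold gam
  rw [div_mul_cancel₀ _ (abs_ne_zero.mpr hx)]

theorem absE_eq (h : EH ε E H) {x : ℝ} (hx : x ≠ 0) : |E x| = (1 + gam H x) * |x| := by
  rw [h.absE, absH_eq hx]; ring

/-- log-convexity along `E`-orbits -/
theorem logconvex (h : EH ε E H) (s : ℝ) : |E s| ^ 2 ≤ |E (E s)| * |s| := by
  classical
  let Ei := Function.surjInv h.surjE
  have hEi : ∀ y, E (Ei y) = y := Function.surjInv_eq h.surjE
  let x : ℕ → ℝ := fun m => match m with
    | 0 => E (E s)
    | 1 => E s
    | (m+2) => Ei^[m] s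
  have hx : ∀ m, E (x (m+1)) = x m := by
    intro m
    match m with
    | 0 => rfl
    | 1 => rfl
    | (m+2) =>
      show E (Ei^[m+1] s) = Ei^[m] s
      rw [Function.iterate_succ_apply']
      exact hEi _
  let T : ℕ → ℕ → ℝ := fun k l => |H^[l] (x (k + l))|
  have hT : ∀ p q, T p q = T (p+1) q + T p (q+1) := by
    intro p q
    show |H^[q] (x (p + q))| = |H^[q] (x (p + 1 + q))| + |H^[q+1] (x (p + (q+1)))|
    have e1 : p + 1 + q = p + q + 1 := by ring
    have e2 : p + (q + 1) = p + q + 1 := by ring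
    rw [e1, e2, ← hx (p+q)]
    have := h.commute.symm.iterate_left q (x (p+q+1))
    rw [this, h.absE, Function.iterate_succ_apply']
  have := array_logconvex T (fun p q => abs_nonneg _) hT 0 0
  have h1 : T (0+1) 0 = |E s| := rfl
  have h2 : T 0 0 = |E (E s)| := rfl
  have h3 : T (0+2) 0 = |s| := rfl
  rw [h1, h2, h3] at this
  exact this

theorem gam_le_gamE (h : EH ε E H) {s : ℝ} (hs : s ≠ 0) : gam H s ≤ gam H (E s) := by
  have h1 := h.logconvex s
  have hs' : 0 < |s| := abs_pos.mpr hs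
  have hEs : E s ≠ 0 := h.E_ne hs
  have hEs' : 0 < |E s| := abs_pos.mpr hEs
  have h2 : |E (E s)| = |E s| + |H (E s)| := h.absE _
  have h3 : |E s| = |s| + |H s| := h.absE _
  unfold gam
  rw [div_le_div_iff₀ hs' hEs']
  rw [h2] at h1
  nlinarith

theorem gamE_le_gamH (h : EH ε E H) {s : ℝ} (hs : s ≠ 0) : gam H (E s) ≤ gam H (H s) := by
  have h1 := h.gam_le_gamE hs
  have hs' : 0 < |s| := abs_pos.mpr hs
  have hEs : E s ≠ 0 := h.E_ne hs
  have hEs' : 0 < |E s| := abs_pos.mpr hEs
  have hHs : H s ≠ 0 := h.H_ne hs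
  have hHs' : 0 < |H s| := abs_pos.mpr hHs
  have h2 : |H (E s)| = |H s| + |H (H s)| := by rw [← h.comm, h.absE]
  have h3 : |E s| = |s| + |H s| := h.absE _
  unfold gam at h1 ⊢
  rw [div_le_div_iff₀ hs' hEs'] at h1
  rw [div_le_div_iff₀ hEs' hHs']
  rw [h2, h3] at h1 ⊢
  nlinarith

theorem gam_le_gamH (h : EH ε E H) {s : ℝ} (hs : s ≠ 0) : gam H s ≤ gam H (H s) :=
  (h.gam_le_gamE hs).trans (h.gamE_le_gamH hs)

/-- equality is inherited by `H` -/
theorem gamH_eq (h : EH ε E H) {s : ℝ} (hs : s ≠ 0) (he : gam H (E s) = gam H s) :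
    gam H (H s) = gam H s := by
  have hs' : 0 < |s| := abs_pos.mpr hs
  have hEs : E s ≠ 0 := h.E_ne hs
  have hEs' : 0 < |E s| := abs_pos.mpr hEs
  have hHs : H s ≠ 0 := h.H_ne hs
  have hHs' : 0 < |H s| := abs_pos.mpr hHs
  have h2 : |H (E s)| = |H s| + |H (H s)| := by rw [← h.comm, h.absE]
  have h3 : |E s| = |s| + |H s| := h.absE _
  unfold gam at he ⊢
  rw [div_eq_div_iff hEs'.ne' hs'.ne'] at he
  rw [div_eq_div_iff hHs'.ne' hs'.ne']
  rw [h2, h3] at he
  linarith

/-- the rigidity lemma -/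
theorem rigid (h : EH ε E H) {s s' : ℝ} (hs : s ≠ 0) (he : gam H (E s) = gam H s)
    (hs' : E s' = s) : gam H s' = gam H s := by
  have hs'0 : s' ≠ 0 := by
    rintro rfl
    rw [h.E0] at hs'
    exact hs hs'.symm
  have as : 0 < |s| := abs_pos.mpr hs
  have as' : 0 < |s'| := abs_pos.mpr hs'0
  have hEs : E s ≠ 0 := h.E_ne hs
  have aEs : 0 < |E s| := abs_pos.mpr hEs
  have aEEs : 0 < |E (E s)| := abs_pos.mpr (h.E_ne hEs)
  -- the quadratic form
  have hq : ∀ (y κ : ℝ), 0 ≤ κ → 0 ≤ |y| - 2*κ*|E y| + κ^2*|E (E y)| := by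
    intro y κ hκ
    have h1 := h.logconvex y
    have ha := abs_nonneg y
    have hb := abs_nonneg (E (E y))
    rcases eq_or_lt_of_le hb with hb0 | hb0
    · have : E (E y) = 0 := by
        rw [← abs_eq_zero]; exact hb0.symm
      have hy : y = 0 := by
        by_contra hy
        exact h.E_ne (h.E_ne hy) this
      rw [hy, h.E0, h.E0]; simp
    · -- multiply by |EEy|
      have : 0 ≤ |E (E y)| * (|y| - 2*κ*|E y| + κ^2*|E (E y)|) := by
        nlinarith [sq_nonneg (κ * |E (E y)| - |E y|)]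
      exact nonneg_of_mul_nonneg_right this hb0
  set κ := |s| / |E s| with hκ
  have hκ0 : 0 < κ := div_pos as aEs
  have hsκ : |s| = κ * |E s| := by rw [hκ, div_mul_cancel₀ _ aEs.ne']
  have hγ : (1 + gam H s) * |s| = |E s| := (h.absE_eq hs).symm
  have hγE : (1 + gam H (E s)) * |E s| = |E (E s)| := (h.absE_eq hEs).symm
  have hEsκ : |E s| = κ * |E (E s)| := by
    rw [he] at hγE
    rw [← hγE, ← hγ]
    rw [← hγ] at hsκ
    -- |s| = κ (1+γ)|s|
    have : κ * (1 + gam H s) = 1 := by
      have h5 : |s| * (κ * (1 + gam H s)) = |s| * 1 := by linarith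
      exact mul_left_cancel₀ as.ne' h5
    linear_combination (-(1 + gam H s) * |s|) * this
  -- q(s) = 0
  have q0 : |s| - 2*κ*|E s| + κ^2*|E (E s)| = 0 := by
    rw [hsκ]; rw [hEsκ]; ring
  have e1 : |s| = |s'| + |H s'| := by rw [← hs', h.absE]
  have e2 : |E s| = |E s'| + |E (H s')| := by rw [h.comm, ← hs', h.absE (E s'), hs']
  have e3 : |E (E s)| = |E (E s')| + |E (E (H s'))| := by
    rw [h.comm, h.comm, ← hs', h.absE (E (E s'))]
  have q1 := hq s' κ hκ0.le
  have q2 := hq (H s') κ hκ0.le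
  have q3 : |s'| - 2*κ*|E s'| + κ^2*|E (E s')| = 0 := by
    rw [e1, e2, e3] at q0
    linarith
  -- q(s')=0 implies |s'| = κ |E s'|
  have l1 := h.logconvex s'
  have h7 : |s'| = κ * |E s'| := by
    have aa : 0 < |E (E s')| := abs_pos.mpr (h.E_ne (h.E_ne hs'0))
    have h8 : (κ * |E (E s')| - |E s'|)^2 ≤ 0 := by nlinarith
    have h9 : κ * |E (E s')| - |E s'| = 0 := by
      have := le_antisymm h8 (sq_nonneg _)
      exact pow_eq_zero_iff (two_ne_zero) |>.mp this
    nlinarith
  rw [hs'] at h7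
  have h10 : |H s'| = |s| - |s'| := by linarith
  have h11 : |H s| = |E s| - |s| := by have := h.absE s; linarith
  unfold gam
  rw [div_eq_div_iff as'.ne' as.ne', h10, h11, h7]
  nlinarith

end EH

end Pool.Agent.Lib.MP12983e
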