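import Mathlib
import Pool.Agent.Lib.MP_12983e_an.Expand

namespace Pool.Agent.Lib.MP12983e

namespace EH

variable {ε : ℝ} {E H : ℝ → ℝ}

/-- points all of whose forward orbit has constant ratio -/
def SS (E H : ℝ → ℝ) (w : ℝ) : Prop :=
  w ≠ 0 ∧ ∀ m n : ℕ, gam H (E^[m] (H^[n] w)) = gam H w

theorem EHn (h : EH ε E H) (n : ℕ) (x : ℝ) : E (H^[n] x) = H^[n] (E x) :=
  h.commute.iterate_right n x

theorem HEn (h : EH ε E H) (n : ℕ) (x : ℝ) : H (E^[n] x) = E^[n] (H x) :=
  h.commute.symm.iterate_right n x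

theorem EmHn (h : EH ε E H) (m n : ℕ) (x : ℝ) : E^[m] (H^[n] x) = H^[n] (E^[m] x) :=
  h.commute.iterate_iterate m n x

theorem SS_E (h : EH ε E H) {w : ℝ} (hw : SS E H w) : SS E H (E w) := by
  refine ⟨h.E_ne hw.1, fun m n => ?_⟩
  have h1 := hw.2 (m+1) n
  have h2 := hw.2 1 0
  simp only [Function.iterate_one, Function.iterate_zero, id] at h2
  rw [← h.EHn, ← Function.iterate_succ_apply, h1, h2]

theorem SS_H (h : EH ε E H) {w : ℝ} (hw : SS E H w) : SS E H (H w) := by
  refine ⟨h.H_ne hw.1, fun m n => ?_⟩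
  have h1 := hw.2 m (n+1)
  have h2 := hw.2 0 1
  simp only [Function.iterate_one, Function.iterate_zero, id] at h2
  rw [← Function.iterate_succ_apply, h1, h2]

theorem gam_E_of_SS {w : ℝ} (hw : SS E H w) : gam H (E w) = gam H w := by
  have h2 := hw.2 1 0
  simpa using h2

theorem gam_H_of_SS {w : ℝ} (hw : SS E H w) : gam H (H w) = gam H w := by
  have h2 := hw.2 0 1
  simpa using h2

theorem SS_itE (h : EH ε E H) {w : ℝ} (hw : SS E H w) (m : ℕ) : SS E H (E^[m] w) := by
  induction m with
  | zero => simpa using hw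
  | succ m ih => rw [Function.iterate_succ_apply']; exact h.SS_E ih

theorem SS_itH (h : EH ε E H) {w : ℝ} (hw : SS E H w) (m : ℕ) : SS E H (H^[m] w) := by
  induction m with
  | zero => simpa using hw
  | succ m ih => rw [Function.iterate_succ_apply']; exact h.SS_H ih

/-- backward closure -/
theorem SS_back (h : EH ε E H) {w w' : ℝ} (hw : SS E H w) (e : E w' = w) :
    SS E H w' ∧ gam H w' = gam H w := by
  have hw' : w' ≠ 0 := by
    rintro rfl
    rw [h.E0] at e
    exact hw.1 e.symm
  have key : ∀ n, gam H (H^[n] w') = gam H w := by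
    intro n
    have h1 : E (H^[n] w') = H^[n] w := by rw [h.EHn, e]
    have h2 : SS E H (H^[n] w) := h.SS_itH hw n
    rw [h.rigid h2.1 (gam_E_of_SS h2) h1]
    have := hw.2 0 n
    simpa using this
  have k0 := key 0
  simp only [Function.iterate_zero, id] at k0
  refine ⟨⟨hw', fun m n => ?_⟩, k0⟩
  rw [k0]
  cases m with
  | zero => simpa using key n
  | succ m =>
    rw [Function.iterate_succ_apply, h.EHn, e]
    exact hw.2 m n

theorem abs_itE_SS (h : EH ε E H) {w : ℝ} (hw : SS E H w) (m : ℕ) :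
    |E^[m] w| = (1 + gam H w)^m * |w| := by
  induction m with
  | zero => simp
  | succ m ih =>
    rw [Function.iterate_succ_apply', h.absE_eq (h.itE_ne hw.1 m), ih]
    have := hw.2 m 0
    simp only [Function.iterate_zero, id] at this
    rw [this]; ring

theorem abs_itH_SS (h : EH ε E H) {w : ℝ} (hw : SS E H w) (m : ℕ) :
    |H^[m] w| = (gam H w)^m * |w| := by
  induction m with
  | zero => simp
  | succ m ih =>
    rw [Function.iterate_succ_apply', absH_eq (h.itH_ne hw.1 m), ih]
    have := hw.2 0 m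
    simp only [Function.iterate_zero, id] at this
    rw [this]; ring

theorem gam_itE_SS {w : ℝ} (hw : SS E H w) (m : ℕ) : gam H (E^[m] w) = gam H w := by
  have := hw.2 m 0
  simpa using this

theorem gam_itH_SS {w : ℝ} (hw : SS E H w) (m : ℕ) : gam H (H^[m] w) = gam H w := by
  have := hw.2 0 m
  simpa using this

/-- monotonicity of the ratio along iterates -/
theorem gam_le_itE (h : EH ε E H) {s : ℝ} (hs : s ≠ 0) (m : ℕ) : gam H s ≤ gam H (E^[m] s) := by
  induction m with
  | zero => simp
  | succ m ih =>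
    rw [Function.iterate_succ_apply']
    exact ih.trans (h.gam_le_gamE (h.itE_ne hs m))

theorem gam_le_itH (h : EH ε E H) {s : ℝ} (hs : s ≠ 0) (m : ℕ) : gam H s ≤ gam H (H^[m] s) := by
  induction m with
  | zero => simp
  | succ m ih =>
    rw [Function.iterate_succ_apply']
    exact ih.trans (h.gam_le_gamH (h.itH_ne hs m))

theorem gam_itE_le_itH (h : EH ε E H) (m : ℕ) : ∀ {s : ℝ}, s ≠ 0 →
    gam H (E^[m] s) ≤ gam H (H^[m] s) := by
  induction m with
  | zero => intro s _; simp
  | succ m ih =>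
    intro s hs
    have h1 := ih (h.E_ne hs)
    rw [Function.iterate_succ_apply, Function.iterate_succ_apply']
    refine h1.trans ?_
    rw [← h.EHn]
    exact h.gamE_le_gamH (h.itH_ne hs m)

theorem nf (h : EH ε E H) (i j k l : ℕ) (t : ℝ) :
    E^[i + k] (H^[j + l] t) = E^[i] (H^[j] (H^[l] (E^[k] t))) := by
  rw [← h.EmHn k l t, ← h.EmHn k j, Function.iterate_add_apply E i k,
    Function.iterate_add_apply H j l]

theorem nf' (h : EH ε E H) (l k i j : ℕ) (t : ℝ) :
    E^[k + i] (H^[l + j] t) = H^[l] (E^[k] (E^[i] (H^[j] t))) := by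
  rw [← h.EmHn k l, ← h.EmHn i l, Function.iterate_add_apply E k i,
    Function.iterate_add_apply H l j]

/-- a coincidence `H^l E^k t = E^l t` forces constant ratio -/
theorem coincidence (h : EH ε E H) {t : ℝ} (ht : t ≠ 0) {k l : ℕ} (hk : 1 ≤ k)
    (e : H^[l] (E^[k] t) = E^[l] t) : SS E H t := by
  set w := E^[l] t with hw
  have hw0 : w ≠ 0 := h.itE_ne ht l
  -- constant ratio along forward orbit of w
  have key : ∀ i j : ℕ, gam H (E (E^[i] (H^[j] w))) = gam H (E^[i] (H^[j] w)) := by
    intro i j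
    set s := E^[i] (H^[j] w) with hs
    have hs0 : s ≠ 0 := h.itE_ne (h.itH_ne hw0 j) i
    apply le_antisymm _ (h.gam_le_gamE hs0)
    set y := E^[i] (H^[j] t) with hy
    have hy0 : y ≠ 0 := h.itE_ne (h.itH_ne ht j) i
    -- s = E^l y
    have s1 : s = E^[l] y := by
      rw [hs, hw, hy]
      rw [← h.EmHn l j t, ← Function.iterate_add_apply, ← Function.iterate_add_apply, Nat.add_comm]
    -- s = H^l (E^k y)
    have s2 : s = H^[l] (E^[k] y) := by
      rw [hs, ← e, hy]
      rw [← h.nf i j k l t, ← h.nf' l k i j t]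
      rw [Nat.add_comm k i, Nat.add_comm j l]
    have g1 : gam H (E^[l] (E^[k] y)) ≤ gam H s := by
      rw [s2]
      exact h.gam_itE_le_itH l (h.itE_ne hy0 k)
    have g2 : E^[l] (E^[k] y) = E^[k] s := by
      rw [s1, ← Function.iterate_add_apply E l k y, ← Function.iterate_add_apply E k l y,
        Nat.add_comm l k]
    rw [g2] at g1
    refine le_trans ?_ g1
    obtain ⟨k', rfl⟩ : ∃ k', k = k' + 1 := ⟨k - 1, by omega⟩
    rw [Function.iterate_succ_apply]
    exact h.gam_le_itE (h.E_ne hs0) k'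
  have keyH : ∀ j : ℕ, gam H (H^[j] w) = gam H w := by
    intro j
    induction j with
    | zero => simp
    | succ j ih =>
      have := key 0 j
      simp only [Function.iterate_zero, id] at this
      rw [Function.iterate_succ_apply', h.gamH_eq (h.itH_ne hw0 j) this, ih]
  have keyE : ∀ i j : ℕ, gam H (E^[i] (H^[j] w)) = gam H w := by
    intro i j
    induction i with
    | zero => simpa using keyH j
    | succ i ih => rw [Function.iterate_succ_apply', key, ih]
  have hwS : SS E H w := ⟨hw0, keyE⟩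
  -- pull back
  clear_value w
  clear key keyH keyE e
  induction l generalizing w with
  | zero => simp at hw; rw [← hw]; exact hwS
  | succ l ih =>
    rw [Function.iterate_succ_apply'] at hw
    exact ih (E^[l] t) rfl (h.itE_ne ht l) (h.SS_back hwS hw.symm).1

end EH

end Pool.Agent.Lib.MP12983e
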