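import Mathlib
import Pool.Agent.Lib.MP_12983e_an.Expand2

namespace Pool.Agent.Lib.MP12983e

/-- type function -/
noncomputable def psi (k l : ℕ) (r : ℝ) : ℝ := (r/(1+r))^l * (1+r)^(2*k)

theorem psi_lt {k l : ℕ} (hl : 1 ≤ l) {r s : ℝ} (hr : 0 ≤ r) (hrs : r < s) :
    psi k l r < psi k l s := by
  unfold psi
  have hs : 0 < s := lt_of_le_of_lt hr hrs
  have h1 : r/(1+r) < s/(1+s) := by
    rw [div_lt_div_iff₀ (by linarith) (by linarith)]; nlinarith
  have h2 : (r/(1+r))^l < (s/(1+s))^l :=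
    pow_lt_pow_left₀ h1 (div_nonneg hr (by linarith)) (by omega)
  have h3 : (1+r)^(2*k) ≤ (1+s)^(2*k) := pow_le_pow_left₀ (by linarith) (by linarith) _
  have h4 : 0 < (1+r)^(2*k) := by positivity
  have h5 : 0 ≤ (r/(1+r))^l := by positivity
  have h6 : 0 < (s/(1+s))^l := by positivity
  nlinarith

theorem log_psi {k l : ℕ} {r : ℝ} (hr : 0 < r) :
    Real.log (psi k l r) = -(l * Real.log (1+1/r)) + 2*k*Real.log (1+r) := by
  unfold psi
  have h1 : r/(1+r) = (1+1/r)⁻¹ := by field_simp; ring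
  rw [Real.log_mul (by positivity) (by positivity), Real.log_pow, Real.log_pow, h1, Real.log_inv]
  push_cast; ring

theorem psi_pos {k l : ℕ} {r : ℝ} (hr : 0 < r) : 0 < psi k l r := by
  unfold psi; positivity

theorem u_lt {b c : ℝ} (hb : 0 < b) (hbc : b < c) :
    Real.log (1+1/c) / Real.log (1+c) < Real.log (1+1/b) / Real.log (1+b) := by
  have hc : 0 < c := hb.trans hbc
  have h1 : 0 < Real.log (1+b) := Real.log_pos (by linarith)
  have h2 : 0 < Real.log (1+c) := Real.log_pos (by linarith)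
  have h3 : Real.log (1+b) < Real.log (1+c) := Real.log_lt_log (by linarith) (by linarith)
  have hb1 : 0 < 1/b := by positivity
  have hc1 : 0 < 1/c := by positivity
  have h4 : 0 < Real.log (1+1/c) := Real.log_pos (by linarith)
  have h6 : 1/c < 1/b := one_div_lt_one_div_of_lt hb hbc
  have h5 : Real.log (1+1/c) < Real.log (1+1/b) := Real.log_lt_log (by linarith) (by linarith)
  rw [div_lt_div_iff₀ h2 h1]
  nlinarith

theorem exists_type {b c : ℝ} (hb : 0 < b) (hbc : b < c) :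
    ∃ k l : ℕ, 1 ≤ k ∧ 1 ≤ l ∧ psi k l b < 1 ∧ 1 < psi k l c := by
  have hc : 0 < c := hb.trans hbc
  have h1 : 0 < Real.log (1+b) := Real.log_pos (by linarith)
  have h2 : 0 < Real.log (1+c) := Real.log_pos (by linarith)
  have hc1 : 0 < 1/c := by positivity
  have h4 : 0 < Real.log (1+1/c) := Real.log_pos (by linarith)
  obtain ⟨q, hq1, hq2⟩ := exists_rat_btwn (u_lt hb hbc)
  have hq0 : (0:ℝ) < q := lt_trans (div_pos h4 h2) hq1
  have hq0' : 0 < q := by exact_mod_cast hq0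
  have hnum : 0 < q.num := Rat.num_pos.mpr hq0'
  have hqe : (q:ℝ) = (q.num.toNat : ℝ) / (q.den : ℝ) := by
    have : (q.num.toNat : ℤ) = q.num := Int.toNat_of_nonneg hnum.le
    have h5 : ((q.num.toNat : ℤ) : ℝ) = (q.num : ℝ) := by rw [this]
    have h6 : ((q.num.toNat : ℕ) : ℝ) = (q.num : ℝ) := by rw [← h5]; norm_cast
    rw [h6]
    exact_mod_cast (Rat.num_div_den q).symm
  have hden : (0:ℝ) < q.den := by exact_mod_cast q.den_pos
  refine ⟨q.num.toNat, 2*q.den, by omega, by have := q.den_pos; omega, ?_, ?_⟩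
  · rw [← Real.log_neg_iff (psi_pos hb), log_psi hb]
    rw [hqe, div_lt_div_iff₀ hden h1] at hq2
    push_cast
    nlinarith
  · rw [← Real.log_pos_iff (psi_pos hc).le, log_psi hc]
    rw [hqe, div_lt_div_iff₀ h2 hden] at hq1
    push_cast
    nlinarith

namespace EH

variable {ε : ℝ} {E H : ℝ → ℝ}

/-- backward orbit -/
def BO (E : ℝ → ℝ) (x : ℕ → ℝ) : Prop := ∀ m, E (x (m+1)) = x m

theorem exists_BO (h : EH ε E H) (z : ℝ) : ∃ x : ℕ → ℝ, x 0 = z ∧ BO E x := by
  classical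
  let Ei := Function.surjInv h.surjE
  have hEi : ∀ y, E (Ei y) = y := Function.surjInv_eq h.surjE
  refine ⟨fun m => Ei^[m] z, rfl, fun m => ?_⟩
  show E (Ei^[m+1] z) = Ei^[m] z
  rw [Function.iterate_succ_apply']
  exact hEi _

theorem BO_ne (h : EH ε E H) {x : ℕ → ℝ} (hx : BO E x) (h0 : x 0 ≠ 0) (m : ℕ) : x m ≠ 0 := by
  induction m with
  | zero => exact h0
  | succ m ih =>
    intro h1
    have := hx m
    rw [h1, h.E0] at this
    exact ih this.symm

theorem BO_abs (h : EH ε E H) {x : ℕ → ℝ} (hx : BO E x) (m : ℕ) :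
    |x m| = |x (m+1)| + |H (x (m+1))| := by
  rw [← h.absE, hx]

theorem BO_le (h : EH ε E H) {x : ℕ → ℝ} (hx : BO E x) (m : ℕ) : |x m| ≤ |x 0| := by
  induction m with
  | zero => exact le_rfl
  | succ m ih =>
    have := h.BO_abs hx m
    have := abs_nonneg (H (x (m+1)))
    linarith

theorem BO_it {x : ℕ → ℝ} (hx : BO E x) (m j : ℕ) : E^[m] (x (j+m)) = x j := by
  induction m with
  | zero => simp
  | succ m ih =>
    rw [Function.iterate_succ_apply, ← add_assoc, hx, ih]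

theorem BO_small (h : EH ε E H) {x : ℕ → ℝ} (hx : BO E x) (h0 : x 0 ≠ 0) {δ : ℝ}
    (hδ : 0 < δ) : ∀ m, ∃ M, m ≤ M ∧ |x M| < δ := by
  have key : ∃ M, |x M| < δ := by
    by_contra hcon
    push Not at hcon
    have hK : IsCompact (Metric.closedBall (0:ℝ) |x 0| ∩ {y | δ ≤ |y|}) :=
      (isCompact_closedBall _ _).inter_right
        (isClosed_le continuous_const continuous_abs)
    have hne : (Metric.closedBall (0:ℝ) |x 0| ∩ {y | δ ≤ |y|}).Nonempty :=
      ⟨x 0, by simp, hcon 0⟩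
    obtain ⟨y0, hy0, hmin⟩ := hK.exists_isMinOn hne
      (f := fun y => |H y|) (h.cont.abs.continuousOn)
    have hy0' : y0 ≠ 0 := by
      rintro rfl
      have := hy0.2
      rw [Set.mem_ofPred_eq, abs_zero] at this
      linarith
    have hc : 0 < |H y0| := abs_pos.mpr (h.H_ne hy0')
    have hb : ∀ m : ℕ, |x m| ≤ |x 0| - m * |H y0| := by
      intro m
      induction m with
      | zero => simp
      | succ m ih =>
        have h1 := h.BO_abs hx m
        have h2 : |H y0| ≤ |H (x (m+1))| := by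
          apply hmin
          refine ⟨?_, hcon (m+1)⟩
          rw [mem_closedBall_zero_iff, Real.norm_eq_abs]
          exact h.BO_le hx (m+1)
        push_cast
        linarith
    obtain ⟨n, hn⟩ := exists_nat_gt (|x 0| / |H y0|)
    rw [div_lt_iff₀ hc] at hn
    have := hb n
    have := abs_nonneg (x n)
    linarith
  obtain ⟨M, hM⟩ := key
  intro m
  refine ⟨m + M, by omega, ?_⟩
  clear hδ
  induction m with
  | zero => simpa using hM
  | succ m ih =>
    have h1 := h.BO_abs hx (m+M)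
    have := abs_nonneg (H (x (m+M+1)))
    have e : m + 1 + M = m + M + 1 := by ring
    rw [e]
    linarith

theorem BO_H (h : EH ε E H) {x : ℕ → ℝ} (hx : BO E x) : BO E (fun m => H (x m)) := by
  intro m
  show E (H (x (m+1))) = H (x m)
  rw [h.comm, hx]

theorem lim1 (h : EH ε E H) {x : ℕ → ℝ} (hx : BO E x) (h0 : x 0 ≠ 0) {c : ℝ}
    (hc : ∀ m, c ≤ gam H (H (x m))) (m : ℕ) : c ≤ gam H (x m) := by
  rcases le_or_gt c 0 with hc0 | hc0
  · exact hc0.trans (gam_nonneg _)
  have hne := h.BO_ne hx h0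
  have hstep : ∀ m, |H (x (m+1))| - c * |x (m+1)| ≤ |H (x m)| - c * |x m| := by
    intro m
    have h1 := h.BO_abs hx m
    have h2 : |H (x m)| = |H (x (m+1))| + |H (H (x (m+1)))| := h.BO_abs (h.BO_H hx) m
    have h3 : |H (H (x (m+1)))| = gam H (H (x (m+1))) * |H (x (m+1))| :=
      absH_eq (h.H_ne (hne (m+1)))
    have h4 := hc (m+1)
    have h5 := abs_nonneg (H (x (m+1)))
    rw [h2, h1, h3]
    nlinarith
  have hstep' : ∀ n, |H (x (m+n))| - c * |x (m+n)| ≤ |H (x m)| - c * |x m| := by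
    intro n
    induction n with
    | zero => simp
    | succ n ih => exact (hstep (m+n)).trans ih
  have hfin : 0 ≤ |H (x m)| - c * |x m| := by
    by_contra hneg
    push Not at hneg
    obtain ⟨M, hM1, hM2⟩ := h.BO_small hx h0
      (show 0 < (-(|H (x m)| - c * |x m|))/c by apply div_pos _ hc0; linarith) m
    obtain ⟨n, rfl⟩ := Nat.exists_eq_add_of_le hM1
    have h1 := hstep' n
    have h2 := abs_nonneg (H (x (m+n)))
    rw [lt_div_iff₀ hc0] at hM2
    nlinarith
  unfold gam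
  rw [le_div_iff₀ (abs_pos.mpr (hne m))]
  linarith

theorem BO_Hn (h : EH ε E H) {x : ℕ → ℝ} (hx : BO E x) (l : ℕ) :
    BO E (fun m => H^[l] (x m)) := by
  intro m
  show E (H^[l] (x (m+1))) = H^[l] (x m)
  rw [h.EHn, hx]

theorem limL (h : EH ε E H) {x : ℕ → ℝ} (hx : BO E x) (h0 : x 0 ≠ 0) {c : ℝ} (l : ℕ)
    (hc : ∀ m, c ≤ gam H (H^[l] (x m))) : ∀ m, c ≤ gam H (x m) := by
  induction l with
  | zero => simpa using hc
  | succ l ih =>
    apply ih
    intro m
    apply h.lim1 (h.BO_Hn hx l) (h.itH_ne h0 l)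
    intro m'
    have := hc m'
    rwa [Function.iterate_succ_apply'] at this

/-! ### growth bounds -/

theorem growE_ge (h : EH ε E H) {z r : ℝ} (hz : z ≠ 0) (hr0 : 0 ≤ r) (hr : r ≤ gam H z) (k : ℕ) :
    (1+r)^k * |z| ≤ |E^[k] z| := by
  induction k with
  | zero => simp
  | succ k ih =>
    rw [Function.iterate_succ_apply', h.absE_eq (h.itE_ne hz k)]
    have h1 := hr.trans (h.gam_le_itE hz k)
    have h2 : 0 ≤ (1+r)^k * |z| := by positivity
    have h3 : 0 ≤ |E^[k] z| := abs_nonneg _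
    calc (1+r)^(k+1) * |z| = (1+r) * ((1+r)^k*|z|) := by ring
      _ ≤ (1+r) * |E^[k] z| := by apply mul_le_mul_of_nonneg_left ih; linarith
      _ ≤ _ := by apply mul_le_mul_of_nonneg_right _ h3; linarith

theorem growHE (h : EH ε E H) {y : ℝ} (hy : y ≠ 0) (l : ℕ) :
    (gam H y)^l * |E^[l] y| ≤ |H^[l] y| * (1 + gam H y)^l := by
  induction l with
  | zero => simp
  | succ l ih =>
    rw [Function.iterate_succ_apply', Function.iterate_succ_apply',
      h.absE_eq (h.itE_ne hy l), absH_eq (h.itH_ne hy l)]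
    set r := gam H y
    set g1 := gam H (H^[l] y)
    set g2 := gam H (E^[l] y)
    have h1 : r ≤ g1 := h.gam_le_itH hy l
    have h2 : g2 ≤ g1 := h.gam_itE_le_itH l hy
    have h3 : r ≤ g2 := h.gam_le_itE hy l
    have hr : 0 ≤ r := gam_nonneg _
    have hA : 0 ≤ |H^[l] y| := abs_nonneg _
    have hB : 0 ≤ |E^[l] y| := abs_nonneg _
    have h4 : r * (1 + g2) ≤ g1 * (1 + r) := by nlinarith
    calc r^(l+1) * ((1+g2) * |E^[l] y|) = (r * (1+g2)) * (r^l * |E^[l] y|) := by ring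
      _ ≤ (g1 * (1+r)) * (r^l * |E^[l] y|) := by
          apply mul_le_mul_of_nonneg_right h4; positivity
      _ ≤ (g1 * (1+r)) * (|H^[l] y| * (1+r)^l) := by
          apply mul_le_mul_of_nonneg_left ih
          apply mul_nonneg <;> linarith
      _ = _ := by ring

theorem low_bound (h : EH ε E H) {y : ℝ} (hy : y ≠ 0) (k l : ℕ) (hpsi : 1 < psi k l (gam H y)) :
    |E^[l] y| < |H^[l] (E^[2*k] y)| := by
  rw [← h.EmHn]
  have hr : 0 < gam H y := h.gam_pos hy
  set r := gam H y with hrdef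
  have h1 := h.growE_ge (h.itH_ne hy l) hr.le (h.gam_le_itH hy l) (2*k)
  have h2 := h.growHE hy l
  rw [← hrdef] at h2
  unfold psi at hpsi
  rw [div_pow, div_mul_eq_mul_div, lt_div_iff₀ (by positivity), one_mul] at hpsi
  have hB : 0 < |E^[l] y| := abs_pos.mpr (h.itE_ne hy l)
  have h3 : (1+r)^l * |E^[l] y| < (1+r)^l * |E^[2*k] (H^[l] y)| := by
    calc (1+r)^l * |E^[l] y| < (r^l * (1+r)^(2*k)) * |E^[l] y| := by
          apply mul_lt_mul_of_pos_right hpsi hB
      _ = (1+r)^(2*k) * (r^l * |E^[l] y|) := by ring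
      _ ≤ (1+r)^(2*k) * (|H^[l] y| * (1+r)^l) := by
          apply mul_le_mul_of_nonneg_left h2; positivity
      _ = (1+r)^l * ((1+r)^(2*k) * |H^[l] y|) := by ring
      _ ≤ _ := by apply mul_le_mul_of_nonneg_left h1; positivity
  exact lt_of_mul_lt_mul_left h3 (by positivity)

theorem growE_le (h : EH ε E H) {z c : ℝ} (hz : z ≠ 0) (k : ℕ) (hc0 : 0 ≤ c)
    (hc : gam H (E^[k] z) ≤ c) : |E^[k] z| ≤ (1+c)^k * |z| := by
  induction k with
  | zero => simp
  | succ k ih =>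
    have h1 : gam H (E^[k] z) ≤ c := by
      refine le_trans ?_ hc
      rw [Function.iterate_succ_apply']
      exact h.gam_le_gamE (h.itE_ne hz k)
    have h2 := ih h1
    rw [Function.iterate_succ_apply', h.absE_eq (h.itE_ne hz k)]
    have h3 : 0 ≤ |E^[k] z| := abs_nonneg _
    calc (1 + gam H (E^[k] z)) * |E^[k] z| ≤ (1+c) * |E^[k] z| := by
          apply mul_le_mul_of_nonneg_right _ h3; linarith
      _ ≤ (1+c) * ((1+c)^k*|z|) := by apply mul_le_mul_of_nonneg_left h2; linarith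
      _ = _ := by ring

theorem growH_le (h : EH ε E H) {z c : ℝ} (hz : z ≠ 0) (k : ℕ) (hc0 : 0 ≤ c)
    (hc : gam H (H^[k] z) ≤ c) : |H^[k] z| ≤ c^k * |z| := by
  induction k with
  | zero => simp
  | succ k ih =>
    have h1 : gam H (H^[k] z) ≤ c := by
      refine le_trans ?_ hc
      rw [Function.iterate_succ_apply']
      exact h.gam_le_gamH (h.itH_ne hz k)
    have h2 := ih h1
    rw [Function.iterate_succ_apply', absH_eq (h.itH_ne hz k)]
    have h3 : 0 ≤ |H^[k] z| := abs_nonneg _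
    calc (gam H (H^[k] z)) * |H^[k] z| ≤ c * |H^[k] z| := by
          apply mul_le_mul_of_nonneg_right h1 h3
      _ ≤ c * (c^k*|z|) := by apply mul_le_mul_of_nonneg_left h2 hc0
      _ = _ := by ring

/-! ### signs -/

theorem sign_HE (h : EH ε E H) {a b : ℝ} (hab : 0 < a * b) : 0 < H a * E b := by
  have ha : a ≠ 0 := by rintro rfl; simp at hab
  have hb : b ≠ 0 := by rintro rfl; simp at hab
  have h1 := h.sgn a ha
  have h2 := h.sgnE hb
  have h3 := mul_pos h1 h2
  have h4 : ε * a * H a * (ε * b * E b) = (ε*ε) * ((a*b) * (H a * E b)) := by ring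
  rw [h4, h.εsq, one_mul] at h3
  exact (pos_iff_pos_of_mul_pos h3).mp hab

theorem sign_HEn (h : EH ε E H) {a b : ℝ} (hab : 0 < a * b) (l : ℕ) :
    0 < H^[l] a * E^[l] b := by
  induction l with
  | zero => simpa using hab
  | succ l ih =>
    rw [Function.iterate_succ_apply', Function.iterate_succ_apply']
    exact h.sign_HE ih

theorem sign_EE (h : EH ε E H) {t : ℝ} (ht : t ≠ 0) : 0 < t * E (E t) := by
  have h1 := h.sgnE ht
  have h2 := h.sgnE (h.E_ne ht)
  have h3 := mul_pos h1 h2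
  have h4 : ε * t * E t * (ε * E t * E (E t)) = (ε*ε) * ((E t * E t) * (t * E (E t))) := by ring
  rw [h4, h.εsq, one_mul] at h3
  have h5 : 0 < E t * E t := mul_self_pos.mpr (h.E_ne ht)
  exact (pos_iff_pos_of_mul_pos h3).mp h5

theorem sign_E2k (h : EH ε E H) {t : ℝ} (ht : 0 < t) (k : ℕ) : 0 < E^[2*k] t := by
  induction k with
  | zero => simpa using ht
  | succ k ih =>
    have e : 2 * (k+1) = 2*k + 1 + 1 := by ring
    rw [e, Function.iterate_succ_apply', Function.iterate_succ_apply']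
    have := h.sign_EE ih.ne'
    exact (pos_iff_pos_of_mul_pos this).mp ih

theorem sign_E2k' (h : EH ε E H) {t : ℝ} (ht : t ≠ 0) (k : ℕ) : 0 < t * E^[2*k] t := by
  induction k with
  | zero => simpa using mul_self_pos.mpr ht
  | succ k ih =>
    have e : 2 * (k+1) = 2*k + 1 + 1 := by ring
    rw [e, Function.iterate_succ_apply', Function.iterate_succ_apply']
    have h1 := h.sign_EE (h.itE_ne ht (2*k))
    have h2 := mul_pos ih h1
    have h4 : t * E^[2 * k] t * (E^[2 * k] t * E (E (E^[2 * k] t)))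
      = (E^[2 * k] t * E^[2 * k] t) * (t * E (E (E^[2 * k] t))) := by ring
    rw [h4] at h2
    have h5 : 0 < E^[2 * k] t * E^[2 * k] t := mul_self_pos.mpr (h.itE_ne ht _)
    exact (pos_iff_pos_of_mul_pos h2).mp h5

/-- the intermediate value step -/
theorem ivt (h : EH ε E H) {t1 t2 : ℝ} (h1 : 0 < t1) (h2 : 0 < t2) {k l : ℕ} (hk : 1 ≤ k)
    (a1 : |H^[l] (E^[2*k] t1)| < |E^[l] t1|) (a2 : |E^[l] t2| < |H^[l] (E^[2*k] t2)|) :
    ∃ t ∈ Set.uIcc t1 t2, SS E H t ∧ psi k l (gam H t) = 1 := by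
  have hc : Continuous (fun t => |H^[l] (E^[2*k] t)| - |E^[l] t|) :=
    (((h.cont.iterate l).comp (h.contE.iterate (2*k))).abs).sub (h.contE.iterate l).abs
  have hmem : (0:ℝ) ∈ Set.uIcc (|H^[l] (E^[2*k] t1)| - |E^[l] t1|)
      (|H^[l] (E^[2*k] t2)| - |E^[l] t2|) := by
    rw [Set.mem_uIcc]; left; constructor <;> linarith
  obtain ⟨t, ht, h0⟩ := intermediate_value_uIcc (a := t1) (b := t2) hc.continuousOn hmem
  have htpos : 0 < t := by
    rw [Set.mem_uIcc] at ht
    rcases ht with ht | ht <;> linarith [ht.1]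
  have habs : |H^[l] (E^[2*k] t)| = |E^[l] t| := by simpa [sub_eq_zero] using h0
  have hs : 0 < H^[l] (E^[2*k] t) * E^[l] t :=
    h.sign_HEn (mul_pos (h.sign_E2k htpos k) htpos) l
  have heq : H^[l] (E^[2*k] t) = E^[l] t := by
    rcases abs_eq_abs.mp habs with h3 | h3
    · exact h3
    · rw [h3] at hs
      nlinarith [mul_self_nonneg (E^[l] t)]
  have hSS : SS E H t := h.coincidence htpos.ne' (by omega) heq
  refine ⟨t, ht, hSS, ?_⟩
  have e1 : |H^[l] (E^[2*k] t)| = (gam H t)^l * ((1 + gam H t)^(2*k) * |t|) := by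
    rw [h.abs_itH_SS (h.SS_itE hSS (2*k)) l, gam_itE_SS hSS, h.abs_itE_SS hSS]
  rw [e1, h.abs_itE_SS hSS] at habs
  have hg : 0 < gam H t := h.gam_pos htpos.ne'
  have ht' : 0 < |t| := abs_pos.mpr htpos.ne'
  have e2 : (gam H t)^l * (1 + gam H t)^(2*k) = (1 + gam H t)^l := by
    have : |t| * ((gam H t)^l * (1 + gam H t)^(2*k)) = |t| * (1 + gam H t)^l := by linarith
    exact mul_left_cancel₀ ht'.ne' this
  unfold psi
  rw [div_pow, div_mul_eq_mul_div, e2, div_self (by positivity)]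

/-- low comparison points -/
theorem low_point (h : EH ε E H) {x1 : ℝ} (hx1 : 0 < x1) (k l : ℕ) (hl : 1 ≤ l)
    (hpsi : psi k l (gam H x1) < 1) :
    ∃ y, 0 < y ∧ |H^[l] (E^[2*k] y)| < |E^[l] y| := by
  obtain ⟨x, hx0, hx⟩ := h.exists_BO x1
  have h0 : x 0 ≠ 0 := by rw [hx0]; exact hx1.ne'
  have hne := h.BO_ne hx h0
  have hbdd : BddBelow (Set.range (fun m => gam H (x m))) :=
    ⟨0, by rintro _ ⟨m, rfl⟩; exact gam_nonneg _⟩
  set b := ⨅ m, gam H (x m) with hb
  have hb0 : 0 ≤ b := le_ciInf (fun m => gam_nonneg _)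
  have hbm : ∀ m, b ≤ gam H (x m) := fun m => ciInf_le hbdd m
  have hb1 : b ≤ gam H x1 := by have := hbm 0; rwa [hx0] at this
  have hpsib : psi k l b < 1 := by
    rcases eq_or_lt_of_le hb1 with he | hlt
    · rw [he]; exact hpsi
    · exact (psi_lt hl hb0 hlt).trans hpsi
  have hb2 : b^l * (1+b)^(2*k) < (1+b)^l := by
    unfold psi at hpsib
    rwa [div_pow, div_mul_eq_mul_div, div_lt_one (by positivity)] at hpsib
  -- choose c > b
  have hcont : Continuous (fun c : ℝ => c^l * (1+c)^(2*k)) := by fun_prop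
  have hev : ∀ᶠ c in nhds b, c^l * (1+c)^(2*k) < (1+b)^l :=
    (hcont.tendsto b).eventually (gt_mem_nhds hb2)
  have hev2 : ∀ᶠ c in nhdsWithin b (Set.Ioi b), c^l * (1+c)^(2*k) < (1+b)^l :=
    hev.filter_mono nhdsWithin_le_nhds
  obtain ⟨c, hc1, hc2⟩ := (hev2.and self_mem_nhdsWithin).exists
  have hcb : b < c := hc2
  have hc0 : 0 ≤ c := hb0.trans hcb.le
  -- find m
  have hm : ∃ m, gam H (H^[l] (x m)) < c := by
    by_contra hcon
    push Not at hcon
    have := h.limL hx h0 l hcon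
    have : c ≤ b := le_ciInf this
    linarith
  obtain ⟨m, hm⟩ := hm
  have hm2 : gam H (H^[l] (x (2*m))) < c := by
    refine lt_of_le_of_lt ?_ hm
    have e1 : x m = E^[m] (x (m + m)) := (BO_it hx m m).symm
    rw [e1, ← h.EmHn, ← two_mul]
    exact h.gam_le_itE (h.itH_ne (hne _) l) m
  set y := x (2*m + 2*k) with hy
  have hy0 : y ≠ 0 := hne _
  have e2 : E^[2*k] y = x (2*m) := BO_it hx (2*k) (2*m)
  have hypos : 0 < y := by
    have e3 : E^[2*(m+k)] y = x 0 := by
      have := BO_it hx (2*(m+k)) 0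
      rw [zero_add] at this
      rw [hy, ← mul_add]; exact this
    have h3 := h.sign_E2k' hy0 (m+k)
    rw [e3, hx0] at h3
    exact (pos_iff_pos_of_mul_pos h3).mpr hx1
  refine ⟨y, hypos, ?_⟩
  have e4 : H^[l] (E^[2*k] y) = E^[2*k] (H^[l] y) := (h.EmHn (2*k) l y).symm
  have g1 : gam H (E^[2*k] (H^[l] y)) ≤ c := by
    rw [← e4, e2]; exact hm2.le
  have g2 : |E^[2*k] (H^[l] y)| ≤ (1+c)^(2*k) * |H^[l] y| :=
    h.growE_le (h.itH_ne hy0 l) (2*k) hc0 g1
  have g3 : gam H (H^[l] y) ≤ c := (h.gam_le_itE (h.itH_ne hy0 l) (2*k)).trans g1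
  have g4 : |H^[l] y| ≤ c^l * |y| := h.growH_le hy0 l hc0 g3
  have g5 : (1+b)^l * |y| ≤ |E^[l] y| := h.growE_ge hy0 hb0 (hbm _) l
  rw [e4]
  have hyabs : 0 < |y| := abs_pos.mpr hy0
  calc |E^[2*k] (H^[l] y)| ≤ (1+c)^(2*k) * |H^[l] y| := g2
    _ ≤ (1+c)^(2*k) * (c^l * |y|) := by apply mul_le_mul_of_nonneg_left g4; positivity
    _ = (c^l * (1+c)^(2*k)) * |y| := by ring
    _ < (1+b)^l * |y| := by apply mul_lt_mul_of_pos_right hc1 hyabs
    _ ≤ _ := g5

end EH

end Pool.Agent.Lib.MP12983e
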