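import Mathlib
import Pool.Agent.Lib.MP_12983e_an.Expand3

namespace Pool.Agent.Lib.MP12983e

/-- one-sided density -/
theorem dens {a b : ℝ} (ha : 0 < a) (hirr : Irrational (b / a)) (τ δ : ℝ) (hδ : 0 < δ) :
    ∃ (i : ℕ) (j : ℤ), |τ - (i * b + j * a)| < δ := by
  have hd : Dense (AddSubgroup.closure {b, a} : Set ℝ) :=
    dense_addSubgroupClosure_pair_iff.mpr hirr
  obtain ⟨z, hz, hzd⟩ := hd.exists_dist_lt τ (half_pos hδ)
  rw [SetLike.mem_coe, AddSubgroup.mem_closure_pair] at hz
  obtain ⟨m, n, hmn⟩ := hz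
  rw [zsmul_eq_mul, zsmul_eq_mul] at hmn
  rw [Real.dist_eq] at hzd
  rcases le_or_gt 0 m with hm | hm
  · refine ⟨m.toNat, n, ?_⟩
    have : ((m.toNat : ℕ) : ℝ) = (m : ℝ) := by
      have h5 : (m.toNat : ℤ) = m := Int.toNat_of_nonneg hm
      exact_mod_cast h5
    rw [this, hmn]
    linarith
  · set m' := (-m).toNat with hm'
    have hm'1 : (m' : ℤ) = -m := Int.toNat_of_nonneg (by omega)
    have hm'2 : (m' : ℝ) = -(m:ℝ) := by exact_mod_cast hm'1
    have hm'0 : (0:ℝ) < m' := by rw [hm'2]; have : (m:ℝ) < 0 := by exact_mod_cast hm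
                                 linarith
    -- Dirichlet
    obtain ⟨N, hN⟩ := exists_nat_gt (2 * m' * a / δ)
    have hN0 : 0 < N := by
      have : (0:ℝ) < N := lt_of_le_of_lt (by positivity) hN
      exact_mod_cast this
    obtain ⟨j, k, hk0, _, hkj⟩ := Real.exists_int_int_abs_mul_sub_le (b/a) hN0
    have hk1 : 1 ≤ k := by omega
    refine ⟨m' * (k-1).toNat, n - m' * j, ?_⟩
    have e1 : (((k-1).toNat : ℕ) : ℝ) = (k:ℝ) - 1 := by
      have h5 : ((k-1).toNat : ℤ) = k - 1 := Int.toNat_of_nonneg (by omega)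
      have h6 : (((k-1).toNat : ℤ) : ℝ) = ((k - 1 : ℤ) : ℝ) := by rw [h5]
      push_cast at h6
      exact_mod_cast h6
    push_cast
    rw [e1]
    have e2 : τ - (m' * ((k:ℝ)-1) * b + (n - m' * j) * a)
        = (τ - z) - m' * (k * (b/a) - j) * a := by
      rw [← hmn, hm'2]; field_simp; ring
    rw [e2]
    have e3 : |m' * (k * (b/a) - j) * a| ≤ m' * (1/(N+1)) * a := by
      rw [abs_mul, abs_mul, abs_of_pos hm'0, abs_of_pos ha]
      apply mul_le_mul_of_nonneg_right _ ha.le
      apply mul_le_mul_of_nonneg_left hkj hm'0.le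
    have e4 : m' * (1/((N:ℝ)+1)) * a < δ/2 := by
      rw [div_lt_iff₀ hδ] at hN
      have : (0:ℝ) < N + 1 := by positivity
      have e5 : m' * (1/((N:ℝ)+1)) * a = (m' * a)/(N+1) := by field_simp
      rw [e5, div_lt_iff₀ this]
      nlinarith
    calc |τ - z - m' * (k * (b/a) - j) * a| ≤ |τ - z| + |m' * (k * (b/a) - j) * a| := abs_sub _ _
      _ < δ := by linarith

namespace EH

variable {ε : ℝ} {E H : ℝ → ℝ}

/-- all intermediate ratios are realised by constant-ratio points -/
theorem between (h : EH ε E H) {t1 t2 : ℝ} (h1 : 0 < t1) (h2 : 0 < t2)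
    (s1 : SS E H t1) (s2 : SS E H t2) (h12 : gam H t1 < gam H t2)
    {β : ℝ} (hβ1 : gam H t1 < β) (hβ2 : β < gam H t2) :
    ∃ t, 0 < t ∧ SS E H t ∧ gam H t = β := by
  set K : Set ℝ := Set.uIcc t1 t2 ∩
    {w | ∀ m n : ℕ, |H (E^[m] (H^[n] w))| * |w| = |H w| * |E^[m] (H^[n] w)|} with hK
  have hpos : ∀ w ∈ Set.uIcc t1 t2, 0 < w := by
    intro w hw
    rw [Set.mem_uIcc] at hw
    rcases hw with hw | hw <;> linarith [hw.1]
  have hmemK : ∀ w, w ∈ Set.uIcc t1 t2 → SS E H w → w ∈ K := by
    intro w hw hS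
    refine ⟨hw, ?_⟩
    rw [Set.mem_ofPred_eq]
    intro m n
    have h3 := hS.2 m n
    have h4 : E^[m] (H^[n] w) ≠ 0 := h.itE_ne (h.itH_ne hS.1 n) m
    rw [absH_eq h4, absH_eq hS.1, h3]; ring
  have hKS : ∀ w ∈ K, 0 < w ∧ SS E H w := by
    intro w hw
    have hw0 : 0 < w := hpos w hw.1
    refine ⟨hw0, hw0.ne', fun m n => ?_⟩
    have h3 := hw.2
    rw [Set.mem_ofPred_eq] at h3
    have h4 : E^[m] (H^[n] w) ≠ 0 := h.itE_ne (h.itH_ne hw0.ne' n) m
    unfold gam
    rw [div_eq_div_iff (abs_ne_zero.mpr h4) (abs_ne_zero.mpr hw0.ne')]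
    exact h3 m n
  have hKc : IsCompact K := by
    apply isCompact_uIcc.inter_right
    have : {w | ∀ m n : ℕ, |H (E^[m] (H^[n] w))| * |w| = |H w| * |E^[m] (H^[n] w)|}
        = ⋂ (m : ℕ) (n : ℕ), {w | |H (E^[m] (H^[n] w))| * |w| = |H w| * |E^[m] (H^[n] w)|} := by
      ext w; simp
    rw [this]
    apply isClosed_iInter; intro m
    apply isClosed_iInter; intro n
    have c1 : Continuous (fun w => E^[m] (H^[n] w)) := (h.contE.iterate m).comp (h.cont.iterate n)
    exact isClosed_eq ((h.cont.comp c1).abs.mul continuous_abs) (h.cont.abs.mul c1.abs)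
  have hcg : ContinuousOn (gam H) K := by
    apply ContinuousOn.div h.cont.abs.continuousOn continuous_abs.continuousOn
    intro w hw
    exact abs_ne_zero.mpr (hKS w hw).1.ne'
  have himg : IsClosed (gam H '' K) := (hKc.image_of_continuousOn hcg).isClosed
  by_contra hcon
  push Not at hcon
  have hβ : β ∉ gam H '' K := by
    rintro ⟨w, hw, hwβ⟩
    exact hcon w (hKS w hw).1 (hKS w hw).2 hwβ
  have hopen : (gam H '' K)ᶜ ∈ nhds β := himg.isOpen_compl.mem_nhds hβ
  obtain ⟨δ, hδ, hball⟩ := Metric.mem_nhds_iff.mp hopen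
  set δ' := min (δ/2) (min ((β - gam H t1)/2) ((gam H t2 - β)/2)) with hδ'
  have hδ'0 : 0 < δ' := by
    apply lt_min (by linarith)
    apply lt_min <;> linarith
  have d1 : δ' ≤ δ/2 := min_le_left _ _
  have d2 : δ' ≤ (β - gam H t1)/2 := (min_le_right _ _).trans (min_le_left _ _)
  have d3 : δ' ≤ (gam H t2 - β)/2 := (min_le_right _ _).trans (min_le_right _ _)
  have g1 : 0 < gam H t1 := h.gam_pos h1.ne'
  obtain ⟨k, l, hk, hl, p1, p2⟩ := exists_type (b := β - δ') (c := β + δ') (by linarith)
    (by linarith)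
  have q1 : psi k l (gam H t1) < 1 := (psi_lt hl g1.le (by linarith)).trans p1
  have q2 : 1 < psi k l (gam H t2) := p2.trans (psi_lt hl (by linarith) (by linarith))
  have a1 : |H^[l] (E^[2*k] t1)| < |E^[l] t1| := by
    rw [h.abs_itH_SS (h.SS_itE s1 (2*k)) l, gam_itE_SS s1, h.abs_itE_SS s1, h.abs_itE_SS s1]
    unfold psi at q1
    rw [div_pow, div_mul_eq_mul_div, div_lt_one (by positivity)] at q1
    have : 0 < |t1| := abs_pos.mpr h1.ne'
    calc gam H t1 ^ l * ((1 + gam H t1)^(2*k) * |t1|)
        = (gam H t1 ^ l * (1 + gam H t1)^(2*k)) * |t1| := by ring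
      _ < _ := mul_lt_mul_of_pos_right q1 this
  have a2 : |E^[l] t2| < |H^[l] (E^[2*k] t2)| := h.low_bound h2.ne' k l q2
  obtain ⟨t, ht, hS, hpsi⟩ := h.ivt h1 h2 hk a1 a2
  have htpos := hpos t ht
  have hg : 0 < gam H t := h.gam_pos htpos.ne'
  have r1 : β - δ' < gam H t := by
    by_contra hle
    push Not at hle
    rcases eq_or_lt_of_le hle with he | hlt
    · rw [he] at hpsi; linarith
    · have := psi_lt (k := k) hl hg.le hlt
      linarith
  have r2 : gam H t < β + δ' := by
    by_contra hle
    push Not at hle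
    rcases eq_or_lt_of_le hle with he | hlt
    · rw [← he] at hpsi; linarith
    · have := psi_lt (k := k) hl (by linarith) hlt
      linarith
  have : gam H t ∈ (gam H '' K)ᶜ := by
    apply hball
    rw [Metric.mem_ball, Real.dist_eq, abs_lt]
    constructor <;> linarith
  exact this ⟨t, hmemK t ht hS, rfl⟩

/-- an irrational type constant-ratio point forces linearity on the positive axis -/
theorem irr_linear (h : EH ε E H) {t : ℝ} (ht : 0 < t) (hS : SS E H t)
    (hirr : Irrational (Real.log (gam H t) / Real.log (1 + gam H t))) :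
    ∀ x, 0 < x → gam H x = gam H t := by
  set β := gam H t with hβ
  have hβ0 : 0 < β := h.gam_pos ht.ne'
  have hlog : 0 < Real.log (1+β) := Real.log_pos (by linarith)
  set C : Set ℝ := {τ | |H (Real.exp τ)| = β * Real.exp τ} with hC
  have hCc : IsClosed C :=
    isClosed_eq (h.cont.comp Real.continuous_exp).abs (continuous_const.mul Real.continuous_exp)
  have hmem : ∀ (i : ℕ) (j : ℤ),
      Real.log t + (i * (2 * Real.log β) + j * (2 * Real.log (1+β))) ∈ C := by
    intro i j
    -- base point s = H^{2i} t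
    have hs : SS E H (H^[2*i] t) := h.SS_itH hS (2*i)
    have hspos : 0 < H^[2*i] t := by
      have : ∀ i : ℕ, 0 < H^[2*i] t := by
        intro i
        induction i with
        | zero => simpa using ht
        | succ i ih =>
          have e : 2 * (i+1) = 2*i + 1 + 1 := by ring
          rw [e, Function.iterate_succ_apply', Function.iterate_succ_apply']
          set s := H^[2*i] t
          have h1 := h.sgn s ih.ne'
          have h2 := h.sgn (H s) (h.H_ne ih.ne')
          have h3 := mul_pos h1 h2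
          have h4 : ε * s * H s * (ε * H s * H (H s)) = (ε*ε) * ((H s * H s) * (s * H (H s))) := by
            ring
          rw [h4, h.εsq, one_mul] at h3
          have h5 : 0 < H s * H s := mul_self_pos.mpr (h.H_ne ih.ne')
          have h6 := (pos_iff_pos_of_mul_pos h3).mp h5
          exact (pos_iff_pos_of_mul_pos h6).mp ih
      exact this i
    have hsabs : H^[2*i] t = β^(2*i) * t := by
      have := h.abs_itH_SS hS (2*i)
      rwa [abs_of_pos hspos, abs_of_pos ht] at this
    have hsg : gam H (H^[2*i] t) = β := gam_itH_SS hS _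
    have hpt : ∀ u : ℝ, 0 < u → SS E H u → gam H u = β → Real.log u ∈ C := by
      intro u hu hSu hgu
      show |H (Real.exp (Real.log u))| = β * Real.exp (Real.log u)
      rw [Real.exp_log hu, absH_eq hu.ne', hgu, abs_of_pos hu]
    rcases le_or_gt 0 j with hj | hj
    · obtain ⟨n, rfl⟩ := Int.eq_ofNat_of_zero_le hj
      have hu : 0 < E^[2*n] (H^[2*i] t) := h.sign_E2k hspos n
      have habs := h.abs_itE_SS hs (2*n)
      rw [abs_of_pos hu, hsg, abs_of_pos hspos] at habs
      have := hpt _ hu (h.SS_itE hs (2*n)) (by rw [gam_itE_SS hs, hsg])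
      rw [habs, hsabs, Real.log_mul (by positivity) (by positivity),
        Real.log_mul (by positivity) (by positivity), Real.log_pow, Real.log_pow] at this
      have e : Real.log t + ((i:ℝ) * (2 * Real.log β) + ((n:ℤ):ℝ) * (2 * Real.log (1+β)))
          = ((2*n:ℕ):ℝ) * Real.log (1+β) + (((2*i:ℕ):ℝ) * Real.log β + Real.log t) := by
        push_cast; ring
      rw [e]; exact this
    · obtain ⟨n, hn⟩ := Int.eq_ofNat_of_zero_le (show 0 ≤ -j by omega)
      obtain ⟨x, hx0, hx⟩ := h.exists_BO (H^[2*i] t)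
      have hxs : ∀ m, SS E H (x m) ∧ gam H (x m) = β := by
        intro m
        induction m with
        | zero => rw [hx0]; exact ⟨hs, hsg⟩
        | succ m ih =>
          have := h.SS_back ih.1 (hx m)
          exact ⟨this.1, this.2.trans ih.2⟩
      have e1 : E^[2*n] (x (2*n)) = x 0 := by
        have := BO_it hx (2*n) 0
        rwa [zero_add] at this
      have hu : 0 < x (2*n) := by
        have h3 := h.sign_E2k' (hxs (2*n)).1.1 n
        rw [e1, hx0] at h3
        exact (pos_iff_pos_of_mul_pos h3).mpr hspos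
      have habs := h.abs_itE_SS (hxs (2*n)).1 (2*n)
      rw [e1, hx0, (hxs (2*n)).2, abs_of_pos hu, abs_of_pos hspos, hsabs] at habs
      have hval : Real.log (x (2*n)) = Real.log t + (2*i : ℕ) * Real.log β
          - (2*n : ℕ) * Real.log (1+β) := by
        have := congrArg Real.log habs
        rw [Real.log_mul (by positivity) (by positivity),
          Real.log_mul (by positivity) (by positivity), Real.log_pow, Real.log_pow] at this
        linarith
      have := hpt _ hu (hxs (2*n)).1 (hxs (2*n)).2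
      rw [hval] at this
      have hjn : (j:ℝ) = -(n:ℝ) := by
        have : j = -(n:ℤ) := by omega
        rw [this]; push_cast; ring
      have e : Real.log t + ((i:ℝ) * (2 * Real.log β) + (j:ℝ) * (2 * Real.log (1+β)))
          = Real.log t + ((2*i:ℕ):ℝ) * Real.log β - ((2*n:ℕ):ℝ) * Real.log (1+β) := by
        rw [hjn]; push_cast; ring
      rw [e]; exact this
  have hirr' : Irrational ((2 * Real.log β) / (2 * Real.log (1+β))) := by
    rw [mul_div_mul_left _ _ (two_ne_zero)]; exact hirr
  have hall : ∀ τ, τ ∈ C := by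
    intro τ
    rw [← hCc.closure_eq, Metric.mem_closure_iff]
    intro δ hδ
    obtain ⟨i, j, hij⟩ := dens (a := 2 * Real.log (1+β)) (by linarith) hirr' (τ - Real.log t) δ hδ
    refine ⟨_, hmem i j, ?_⟩
    rw [Real.dist_eq]
    have e : τ - (Real.log t + (i * (2 * Real.log β) + j * (2 * Real.log (1+β))))
        = τ - Real.log t - (i * (2 * Real.log β) + j * (2 * Real.log (1+β))) := by ring
    rw [e]; exact hij
  intro x hx
  have := hall (Real.log x)
  have h2 : |H (Real.exp (Real.log x))| = β * Real.exp (Real.log x) := this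
  rw [Real.exp_log hx] at h2
  unfold gam
  rw [h2, abs_of_pos hx, mul_div_assoc, div_self hx.ne', mul_one]

/-- the ratio is constant on the positive axis -/
theorem gam_const (h : EH ε E H) {x1 x2 : ℝ} (h1 : 0 < x1) (h2 : 0 < x2) :
    gam H x1 = gam H x2 := by
  have main : ∀ x1 x2 : ℝ, 0 < x1 → 0 < x2 → ¬ gam H x1 < gam H x2 := by
    intro x1 x2 h1 h2 hlt
    have g1 : 0 < gam H x1 := h.gam_pos h1.ne'
    set c := (gam H x1 + gam H x2)/2 with hc
    have c1 : gam H x1 < c := by rw [hc]; linarith
    have c2 : c < gam H x2 := by rw [hc]; linarith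
    have c0 : 0 < c := g1.trans c1
    obtain ⟨t1, ht1, hS1, hg1⟩ : ∃ t, 0 < t ∧ SS E H t ∧ gam H t < c := by
      obtain ⟨k, l, hk, hl, p1, p2⟩ := exists_type g1 c1
      obtain ⟨y, hy, hy2⟩ := h.low_point h1 k l hl p1
      have a2 := h.low_bound h2.ne' k l (p2.trans (psi_lt hl c0.le c2))
      obtain ⟨t, ht, hS, hpsi⟩ := h.ivt hy h2 hk hy2 a2
      have htpos : 0 < t := by
        rw [Set.mem_uIcc] at ht
        rcases ht with ht | ht <;> linarith [ht.1]
      refine ⟨t, htpos, hS, ?_⟩
      by_contra hle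
      push Not at hle
      rcases eq_or_lt_of_le hle with he | hlt'
      · rw [← he] at hpsi; linarith
      · have := psi_lt (k := k) hl c0.le hlt'
        linarith
    obtain ⟨t2, ht2, hS2, hg2⟩ : ∃ t, 0 < t ∧ SS E H t ∧ c < gam H t := by
      obtain ⟨k, l, hk, hl, p1, p2⟩ := exists_type c0 c2
      obtain ⟨y, hy, hy2⟩ := h.low_point h1 k l hl ((psi_lt hl g1.le c1).trans p1)
      have a2 := h.low_bound h2.ne' k l p2
      obtain ⟨t, ht, hS, hpsi⟩ := h.ivt hy h2 hk hy2 a2
      have htpos : 0 < t := by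
        rw [Set.mem_uIcc] at ht
        rcases ht with ht | ht <;> linarith [ht.1]
      refine ⟨t, htpos, hS, ?_⟩
      by_contra hle
      push Not at hle
      have hgt := h.gam_pos htpos.ne'
      rcases eq_or_lt_of_le hle with he | hlt'
      · rw [he] at hpsi; linarith
      · have := psi_lt (k := k) hl hgt.le hlt'
        linarith
    have h12 : gam H t1 < gam H t2 := hg1.trans hg2
    have hgt1 := h.gam_pos ht1.ne'
    -- choose an irrational type value in between
    set v : ℝ → ℝ := fun r => Real.log r / Real.log (1+r) with hv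
    have hvmono : v (gam H t1) < v (gam H t2) := by
      have hu := u_lt hgt1 h12
      have e : ∀ r : ℝ, 0 < r → v r = 1 - Real.log (1+1/r) / Real.log (1+r) := by
        intro r hr
        have hl : 0 < Real.log (1+r) := Real.log_pos (by linarith)
        have e1 : 1 + 1/r = (1+r)/r := by field_simp; ring
        rw [e1, Real.log_div (by positivity) hr.ne', hv]
        field_simp; ring
      rw [e _ hgt1, e _ (hgt1.trans h12)]
      linarith
    obtain ⟨q, hqirr, hq1, hq2⟩ := exists_irrational_btwn hvmono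
    have hvc : ContinuousOn v (Set.Icc (gam H t1) (gam H t2)) := by
      apply ContinuousOn.div
      · apply Real.continuousOn_log.mono
        intro r hr
        have : 0 < r := lt_of_lt_of_le hgt1 hr.1
        exact this.ne'
      · apply ContinuousOn.log (by fun_prop)
        intro r hr
        have : 0 < r := lt_of_lt_of_le hgt1 hr.1
        linarith
      · intro r hr
        have : 0 < r := lt_of_lt_of_le hgt1 hr.1
        exact (Real.log_pos (by linarith)).ne'
    obtain ⟨β, hβ, hβq⟩ := intermediate_value_Ioo h12.le hvc ⟨hq1, hq2⟩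
    obtain ⟨t, ht, hS, hgt⟩ := h.between ht1 ht2 hS1 hS2 h12 hβ.1 hβ.2
    have hirr : Irrational (Real.log (gam H t) / Real.log (1 + gam H t)) := by
      rw [hgt]
      have : v β = q := hβq
      rw [hv] at this
      simp only at this
      rw [this]; exact hqirr
    have hlin := h.irr_linear ht hS hirr
    have e1 := hlin t1 ht1
    have e2 := hlin t2 ht2
    linarith
  rcases lt_trichotomy (gam H x1) (gam H x2) with hlt | heq | hgt
  · exact absurd hlt (main x1 x2 h1 h2)
  · exact heq
  · exact absurd hgt (main x2 x1 h2 h1)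

/-- conclusion in the expanding regime -/
theorem linear_pos (h : EH ε E H) : ∃ β, 0 < β ∧ ∀ x, 0 < x → H x = ε * (β * x) := by
  refine ⟨gam H 1, h.gam_pos one_ne_zero, fun x hx => ?_⟩
  rw [h.gam_const one_pos hx]
  have h1 := absH_eq (H := H) hx.ne'
  have h2 := h.sgn x hx.ne'
  rw [abs_of_pos hx] at h1
  rcases h.hε with he | he
  · rw [he] at h2 ⊢
    have : 0 < H x := by
      rw [one_mul] at h2
      exact (pos_iff_pos_of_mul_pos h2).mp hx
    rw [abs_of_pos this] at h1
    rw [one_mul]; exact h1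
  · rw [he] at h2 ⊢
    have : H x < 0 := by
      by_contra hcon
      push Not at hcon
      nlinarith
    rw [abs_of_neg this] at h1
    linarith

end EH

end Pool.Agent.Lib.MP12983e
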