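import Mathlib
import Pool.Agent.Lib.MP_12983e_an.Expand4
import Pool.Agent.Lib.MP_12983e_an.Contract2

/-! Case analysis for continuous solutions of `f (x + f x) = f x + f (f x)`. -/

namespace Pool.Agent.Lib.MP12983e

/-- continuous solution -/
def Sol (f : ℝ → ℝ) : Prop := Continuous f ∧ ∀ x, f (x + f x) = f x + f (f x)

/-- reflection -/
def refl (f : ℝ → ℝ) : ℝ → ℝ := fun x => -f (-x)

theorem Sol.refl {f : ℝ → ℝ} (h : Sol f) : Sol (refl f) := by
  refine ⟨(h.1.comp continuous_neg).neg, fun x => ?_⟩
  have := h.2 (-x)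
  show -f (-(x + -f (-x))) = -f (-x) + -f (-(-f (-x)))
  have e : -(x + -f (-x)) = -x + f (-x) := by ring
  rw [e, this, neg_neg]; ring

theorem Sol.zero {f : ℝ → ℝ} (h : Sol f) : f 0 = 0 := by
  have := h.2 0
  rw [zero_add] at this
  linarith

/-- trichotomy at the right of zero -/
theorem tri {f : ℝ → ℝ} (hf : Continuous f) :
    (∃ η, 0 < η ∧ ∀ x, 0 < x → x < η → 0 < f x) ∨ (∃ η, 0 < η ∧ ∀ x, 0 < x → x < η → f x < 0)
      ∨ (∀ δ, 0 < δ → ∃ z, 0 < z ∧ z < δ ∧ f z = 0) := by
  by_cases h : ∀ δ, 0 < δ → ∃ z, 0 < z ∧ z < δ ∧ f z = 0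
  · right; right; exact h
  push Not at h
  obtain ⟨η, hη, h⟩ := h
  have key : ∀ x y, 0 < x → x < η → 0 < y → y < η → f x < 0 → 0 < f y → False := by
    intro x y hx hxη hy hyη h1 h2
    have hmem : (0:ℝ) ∈ Set.uIcc (f x) (f y) := by
      rw [Set.mem_uIcc]; left; constructor <;> linarith
    obtain ⟨t, ht, ht0⟩ := intermediate_value_uIcc (a := x) (b := y) hf.continuousOn hmem
    have htpos : 0 < t ∧ t < η := by
      rw [Set.mem_uIcc] at ht
      rcases ht with ht | ht <;> constructor <;> linarith [ht.1, ht.2]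
    exact h t htpos.1 htpos.2 ht0
  rcases lt_or_gt_of_ne (h (η/2) (by linarith) (by linarith)) with h1 | h1
  · right; left
    refine ⟨η, hη, fun x hx hxη => ?_⟩
    by_contra hcon
    push Not at hcon
    rcases eq_or_lt_of_le hcon with h2 | h2
    · exact h x hx hxη h2.symm
    · exact key (η/2) x (by linarith) (by linarith) hx hxη h1 h2
  · left
    refine ⟨η, hη, fun x hx hxη => ?_⟩
    by_contra hcon
    push Not at hcon
    rcases eq_or_lt_of_le hcon with h2 | h2
    · exact h x hx hxη h2
    · exact key x (η/2) hx hxη (by linarith) (by linarith) h2 h1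

/-- convergence of increasing orbits -/
theorem orbit_tendsto {F : ℝ → ℝ} (hF : Continuous F) {q : ℝ}
    (h : ∀ x, 0 < x → x < q → x < F x ∧ F x < q) {x : ℝ} (hx : 0 < x) (hxq : x < q) :
    Filter.Tendsto (fun m : ℕ => F^[m] x) Filter.atTop (nhds q) := by
  have hin : ∀ m : ℕ, 0 < F^[m] x ∧ F^[m] x < q := by
    intro m
    induction m with
    | zero => exact ⟨by simpa using hx, by simpa using hxq⟩
    | succ m ih =>
      rw [Function.iterate_succ_apply']
      have := h _ ih.1 ih.2
      exact ⟨by linarith [ih.1], this.2⟩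
  have hmono : Monotone (fun m : ℕ => F^[m] x) := by
    apply monotone_nat_of_le_succ
    intro m
    rw [Function.iterate_succ_apply']
    exact (h _ (hin m).1 (hin m).2).1.le
  have hbdd : BddAbove (Set.range (fun m : ℕ => F^[m] x)) :=
    ⟨q, by rintro _ ⟨m, rfl⟩; exact (hin m).2.le⟩
  have ht := tendsto_atTop_ciSup hmono hbdd
  set L := ⨆ m : ℕ, F^[m] x with hL
  have hL1 : x ≤ L := by
    have := le_ciSup hbdd 0
    simpa using this
  have hL2 : L ≤ q := ciSup_le (fun m => (hin m).2.le)
  have hfix : F L = L := by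
    have h1 : Filter.Tendsto (fun m : ℕ => F (F^[m] x)) Filter.atTop (nhds (F L)) :=
      (hF.tendsto L).comp ht
    have h2 : Filter.Tendsto (fun m : ℕ => F^[m+1] x) Filter.atTop (nhds L) :=
      ht.comp (Filter.tendsto_add_atTop_nat 1)
    have h3 : (fun m : ℕ => F (F^[m] x)) = (fun m : ℕ => F^[m+1] x) := by
      funext m; rw [Function.iterate_succ_apply']
    rw [h3] at h1
    exact tendsto_nhds_unique h1 h2
  have : L = q := by
    by_contra hne
    have hlt : L < q := lt_of_le_of_ne hL2 hne
    have := (h L (by linarith) hlt).1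
    linarith
  rw [← this]; exact ht

/-- positivity near `0+` propagates to the whole half-line -/
theorem pos_global {f : ℝ → ℝ} (h : Sol f) {η : ℝ} (hη : 0 < η)
    (hp : ∀ x, 0 < x → x < η → 0 < f x) : ∀ x, 0 < x → 0 < f x := by
  by_contra hcon
  push Not at hcon
  obtain ⟨x0, hx0, hfx0⟩ := hcon
  set B : Set ℝ := {x | 0 < x ∧ f x ≤ 0} with hB
  have hBne : B.Nonempty := ⟨x0, hx0, hfx0⟩
  have hBη : ∀ x ∈ B, η ≤ x := by
    intro x hx
    by_contra hlt
    push Not at hlt
    have := hp x hx.1 hlt
    linarith [hx.2]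
  have hBbd : BddBelow B := ⟨η, hBη⟩
  set q := sInf B with hq
  have hqη : η ≤ q := le_csInf hBne hBη
  have hq0 : 0 < q := lt_of_lt_of_le hη hqη
  have hpos : ∀ x, 0 < x → x < q → 0 < f x := by
    intro x hx hxq
    by_contra hle
    push Not at hle
    have : q ≤ x := csInf_le hBbd ⟨hx, hle⟩
    linarith
  have hfq : f q = 0 := by
    have h1 : f q ≤ 0 := by
      have h2 : q ∈ closure B := csInf_mem_closure hBne hBbd
      have h3 : closure B ⊆ {x | f x ≤ 0} := by
        apply closure_minimal (fun x hx => hx.2)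
        exact isClosed_le h.1 continuous_const
      exact h3 h2
    rcases eq_or_lt_of_le h1 with h2 | h2
    · exact h2
    · exfalso
      obtain ⟨δ, hδ, hb⟩ := Metric.eventually_nhds_iff.mp ((h.1.tendsto q).eventually
        (gt_mem_nhds h2))
      have hm : 0 < min δ q := lt_min hδ hq0
      have h4 : f (q - min δ q / 2) < 0 := by
        apply hb
        rw [Real.dist_eq, abs_lt]
        have := min_le_left δ q
        constructor <;> linarith
      have h5 := hpos (q - min δ q / 2) (by have := min_le_right δ q; linarith) (by linarith)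
      linarith
  have hne : ∀ x, 0 < x → x < q → x + f x ≠ q := by
    intro x hx hxq he
    have h1 := h.2 x
    rw [he, hfq] at h1
    have h2 := hpos x hx hxq
    have h3 := hpos (f x) h2 (by linarith)
    linarith
  have hcg : Continuous (fun x => x + f x) := continuous_id.add h.1
  have hlt : ∀ x, 0 < x → x < q → x + f x < q := by
    intro x hx hxq
    by_contra hge
    push Not at hge
    have hmem : q ∈ Set.Icc ((fun x => x + f x) 0) ((fun x => x + f x) x) := by
      simp only
      rw [h.zero]
      constructor <;> linarith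
    obtain ⟨s, hs, hsq⟩ := intermediate_value_Icc hx.le hcg.continuousOn hmem
    have hs0 : 0 < s := by
      rcases eq_or_lt_of_le hs.1 with h1 | h1
      · rw [← h1] at hsq
        simp only at hsq
        rw [h.zero] at hsq
        linarith
      · exact h1
    exact hne s hs0 (by linarith [hs.2]) hsq
  have hF : ∀ x, 0 < x → x < q → x < (fun x => x + f x) x ∧ (fun x => x + f x) x < q := by
    intro x hx hxq
    refine ⟨?_, hlt x hx hxq⟩
    have := hpos x hx hxq
    show x < x + f x
    linarith
  set x := q/2 with hxdef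
  have hx : 0 < x := by rw [hxdef]; linarith
  have hxq : x < q := by rw [hxdef]; linarith
  have hfx := hpos x hx hxq
  have hfxq : f x < q := by have := hlt x hx hxq; linarith
  have t1 := orbit_tendsto hcg hF hx hxq
  have t2 := orbit_tendsto hcg hF hfx hfxq
  have t3 : Filter.Tendsto (fun m : ℕ => f ((fun x => x + f x)^[m] x)) Filter.atTop
      (nhds (f q)) := (h.1.tendsto q).comp t1
  have hcomm : Function.Commute (fun x => x + f x) f := fun x => (h.2 x).symm
  have e : (fun m : ℕ => f ((fun x => x + f x)^[m] x))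
      = (fun m : ℕ => (fun x => x + f x)^[m] (f x)) := by
    funext m
    exact hcomm.symm.iterate_right m x
  rw [e] at t3
  have := tendsto_nhds_unique t2 t3
  rw [hfq] at this
  linarith

/-- positivity near `0+` forces linearity on the half-line -/
theorem pos_linear {f : ℝ → ℝ} (h : Sol f) {η : ℝ} (hη : 0 < η)
    (hp : ∀ x, 0 < x → x < η → 0 < f x) : ∃ a, 0 < a ∧ ∀ x, 0 ≤ x → f x = a * x := by
  have hpos := pos_global h hη hp
  -- odd extension
  set H : ℝ → ℝ := fun x => if 0 ≤ x then f x else -f (-x) with hH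
  have hHp : ∀ x, 0 ≤ x → H x = f x := fun x hx => by simp only [hH]; rw [if_pos hx]
  have hHn : ∀ x, x < 0 → H x = -f (-x) := fun x hx => by
    simp only [hH]; rw [if_neg (not_le.mpr hx)]
  have hcont : Continuous H := by
    apply Continuous.if_le h.1 (h.1.comp continuous_neg).neg continuous_const continuous_id
    intro x hx
    have hx0 : x = 0 := hx.symm
    rw [hx0]
    show f 0 = -f (-0)
    rw [neg_zero, h.zero, neg_zero]
  have hEH : EH 1 (fun x => x + H x) H := by
    refine ⟨Or.inl rfl, hcont, ?_, ?_, ?_, ?_⟩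
    · rw [hHp 0 le_rfl, h.zero]
    · intro x hx
      rcases lt_or_gt_of_ne hx with h0 | h0
      · rw [hHn x h0, one_mul]
        have := hpos (-x) (by linarith)
        nlinarith
      · rw [hHp x h0.le, one_mul]
        exact mul_pos h0 (hpos x h0)
    · intro x; ring
    · intro x
      rcases lt_trichotomy x 0 with h0 | h0 | h0
      · have h1 := hpos (-x) (by linarith)
        rw [hHn x h0]
        have e1 := h.2 (-x)
        rw [hHn (-f (-x)) (by linarith), hHn (x + -f (-x)) (by linarith)]
        have e2 : -(x + -f (-x)) = -x + f (-x) := by ring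
        rw [e2, e1, neg_neg]; ring
      · rw [h0, hHp 0 le_rfl, h.zero, hHp 0 le_rfl, h.zero, add_zero, hHp 0 le_rfl, h.zero]
      · have h1 := hpos x h0
        rw [hHp x h0.le, hHp (f x) h1.le, hHp (x + f x) (by linarith)]
        exact (h.2 x).symm
  obtain ⟨β, hβ, hl⟩ := hEH.linear_pos
  refine ⟨β, hβ, fun x hx => ?_⟩
  rcases eq_or_lt_of_le hx with h0 | h0
  · rw [← h0, h.zero]; ring
  · rw [← hHp x hx, hl x h0]; ring

/-- if `f` is linear with positive slope on the left half-line then `f ≥ 0` on the right one -/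
theorem nonneg_right {f : ℝ → ℝ} (h : Sol f) {b : ℝ} (hb : 0 < b)
    (hl : ∀ x, x ≤ 0 → f x = b * x) : ∀ x, 0 ≤ x → 0 ≤ f x := by
  have key : ∀ n : ℕ, ∀ s, 0 < s → f s < 0 → s ≤ n * (-f s) → False := by
    intro n
    induction n with
    | zero => intro s hs _ h2; simp at h2; linarith
    | succ n ih =>
      intro s hs h1 h2
      have e := h.2 s
      rw [hl (f s) h1.le] at e
      rcases le_or_gt (s + f s) 0 with h3 | h3
      · rw [hl _ h3] at e
        nlinarith
      · apply ih (s + f s) h3
        · rw [e]; nlinarith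
        · rw [e]
          push_cast at h2
          have : (0:ℝ) ≤ n := Nat.cast_nonneg n
          have h4 : 0 ≤ (n:ℝ) * (b * (-f s)) := by
            apply mul_nonneg this; apply mul_nonneg hb.le; linarith
          nlinarith
  intro x hx
  by_contra hneg
  push Not at hneg
  rcases eq_or_lt_of_le hx with h0 | h0
  · rw [← h0, h.zero] at hneg; linarith
  · obtain ⟨n, hn⟩ := exists_nat_gt (x / (-f x))
    rw [div_lt_iff₀ (by linarith)] at hn
    exact key n x h0 hneg hn.le

/-- zeros accumulating at `0+` force `f ≤ 0` everywhere -/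
theorem nonpos_of_zeros {f : ℝ → ℝ} (h : Sol f)
    (hz : ∀ δ, 0 < δ → ∃ z, 0 < z ∧ z < δ ∧ f z = 0) : ∀ x, f x ≤ 0 := by
  have hshift : ∀ z s, f z = 0 → f s = z → ∀ m : ℕ, f (s + m * z) = z := by
    intro z s h1 h2 m
    induction m with
    | zero => simpa using h2
    | succ m ih =>
      have := h.2 (s + m * z)
      rw [ih, h1] at this
      push_cast
      have e : s + (m + 1) * z = s + m * z + z := by ring
      rw [e, this]; ring
  have c1 : ∀ x, 0 < x → f x ≤ 0 := by
    intro x hx
    by_contra hcon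
    push Not at hcon
    obtain ⟨δ, hδ, hb⟩ := Metric.eventually_nhds_iff.mp ((h.1.tendsto x).eventually
      (lt_mem_nhds (show f x / 2 < f x by linarith)))
    obtain ⟨z, hz0, hz1, hz2⟩ := hz (min δ (f x / 2)) (lt_min hδ (by linarith))
    have hz3 : z < δ := lt_of_lt_of_le hz1 (min_le_left _ _)
    have hz4 : z < f x / 2 := lt_of_lt_of_le hz1 (min_le_right _ _)
    have hmem : z ∈ Set.Icc (f 0) (f x) := by
      rw [h.zero]; constructor <;> linarith
    obtain ⟨s, hs, hsz⟩ := intermediate_value_Icc hx.le h.1.continuousOn hmem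
    set m := ⌊(x - s)/z⌋₊ with hm
    have hm0 : 0 ≤ (x - s)/z := div_nonneg (by linarith [hs.2]) hz0.le
    have hm1 : (m:ℝ) ≤ (x-s)/z := Nat.floor_le hm0
    have hm2 : (x-s)/z < m + 1 := Nat.lt_floor_add_one _
    rw [le_div_iff₀ hz0] at hm1
    rw [div_lt_iff₀ hz0] at hm2
    have h1 := hb (y := s + m * z) (by
      rw [Real.dist_eq, abs_lt]; constructor <;> nlinarith)
    rw [hshift z s hz2 hsz m] at h1
    linarith
  intro x
  rcases lt_trichotomy x 0 with h0 | h0 | h0
  · by_contra hcon
    push Not at hcon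
    obtain ⟨z, hz0, hz1, hz2⟩ := hz (f x) hcon
    have hmem : z ∈ Set.Icc (f 0) (f x) := by
      rw [h.zero]; constructor <;> linarith
    obtain ⟨s, hs, hsz⟩ := intermediate_value_Icc' h0.le h.1.continuousOn hmem
    obtain ⟨m, hm⟩ := exists_nat_gt (-s / z)
    rw [div_lt_iff₀ hz0] at hm
    have h1 := c1 (s + m * z) (by linarith)
    rw [hshift z s hz2 hsz m] at h1
    linarith
  · rw [h0, h.zero]
  · exact c1 x h0

/-- zeros of `x + f x`: symmetric -/
theorem gzero_symm {f : ℝ → ℝ} (h : Sol f) {w : ℝ} (hw : w + f w = 0) : -w + f (-w) = 0 := by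
  have h1 := h.2 w
  have h2 : f w = -w := by linarith
  rw [hw, h.zero, h2] at h1
  linarith

theorem gshift {f : ℝ → ℝ} (h : Sol f) {u w : ℝ} (hw : w + f w = 0) (hu : u + f u = w) :
    (u - 2*w) + f (u - 2*w) = w := by
  have h2 : f w = -w := by linarith
  have h3 : f (-w) = w := by have := gzero_symm h hw; linarith
  have h4 : f u = w - u := by linarith
  have e1 := h.2 u
  rw [hu, h2, h4] at e1
  have e2 : f (w - u) = u - 2*w := by linarith
  have e3 := h.2 (w - u)
  rw [e2] at e3
  have e4 : w - u + (u - 2*w) = -w := by ring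
  rw [e4, h3] at e3
  linarith

theorem gnonpos_of_gzeros {f : ℝ → ℝ} (h : Sol f)
    (hz : ∀ δ, 0 < δ → ∃ w, 0 < w ∧ w < δ ∧ w + f w = 0) : ∀ x, x + f x ≤ 0 := by
  have hcg : Continuous (fun x => x + f x) := continuous_id.add h.1
  have hshift : ∀ w s, w + f w = 0 → s + f s = w →
      ∀ m : ℕ, (s - m * (2*w)) + f (s - m * (2*w)) = w := by
    intro w s h1 h2 m
    induction m with
    | zero => simpa using h2
    | succ m ih =>
      have := gshift h h1 ih
      push_cast
      have e : s - (m + 1) * (2*w) = s - m * (2*w) - 2*w := by ring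
      rw [e]; exact this
  have c1 : ∀ x, x < 0 → x + f x ≤ 0 := by
    intro x hx
    by_contra hcon
    push Not at hcon
    obtain ⟨δ, hδ, hb⟩ := Metric.eventually_nhds_iff.mp ((hcg.tendsto x).eventually
      (lt_mem_nhds (show (x + f x) / 2 < x + f x by linarith)))
    obtain ⟨w, hw0, hw1, hw2⟩ := hz (min (δ/2) ((x + f x) / 2)) (lt_min (by linarith) (by linarith))
    have hw3 : w < δ/2 := lt_of_lt_of_le hw1 (min_le_left _ _)
    have hw4 : w < (x + f x) / 2 := lt_of_lt_of_le hw1 (min_le_right _ _)
    have hmem : w ∈ Set.Icc ((fun x => x + f x) 0) ((fun x => x + f x) x) := by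
      simp only; rw [h.zero]; constructor <;> linarith
    obtain ⟨s, hs, hsz⟩ := intermediate_value_Icc' hx.le hcg.continuousOn hmem
    set m := ⌊(s - x)/(2*w)⌋₊ with hm
    have hw2' : 0 < 2*w := by linarith
    have hm0 : 0 ≤ (s - x)/(2*w) := div_nonneg (by linarith [hs.1]) hw2'.le
    have hm1 : (m:ℝ) ≤ (s-x)/(2*w) := Nat.floor_le hm0
    have hm2 : (s-x)/(2*w) < m + 1 := Nat.lt_floor_add_one _
    rw [le_div_iff₀ hw2'] at hm1
    rw [div_lt_iff₀ hw2'] at hm2
    have h1 := hb (y := s - m * (2*w)) (by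
      rw [Real.dist_eq, abs_lt]; constructor <;> nlinarith)
    rw [hshift w s hw2 hsz m] at h1
    linarith
  intro x
  rcases lt_trichotomy x 0 with h0 | h0 | h0
  · exact c1 x h0
  · rw [h0, h.zero]; norm_num
  · by_contra hcon
    push Not at hcon
    obtain ⟨w, hw0, hw1, hw2⟩ := hz (x + f x) hcon
    have hmem : w ∈ Set.Icc ((fun x => x + f x) 0) ((fun x => x + f x) x) := by
      simp only; rw [h.zero]; constructor <;> linarith
    obtain ⟨s, hs, hsz⟩ := intermediate_value_Icc h0.le hcg.continuousOn hmem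
    obtain ⟨m, hm⟩ := exists_nat_gt (s / (2*w))
    rw [div_lt_iff₀ (by linarith)] at hm
    have h1 := c1 (s - m * (2*w)) (by linarith)
    rw [hshift w s hw2 hsz m] at h1
    linarith

/-- zeros of `x + f x` accumulating at `0+` force `f = -x` -/
theorem neg_id_of_gzeros {f : ℝ → ℝ} (h : Sol f)
    (hz : ∀ δ, 0 < δ → ∃ w, 0 < w ∧ w < δ ∧ w + f w = 0) : ∀ x, f x = -x := by
  intro x
  have h1 := gnonpos_of_gzeros h hz x
  have h2 := gnonpos_of_gzeros h.refl (by
    intro δ hδ
    obtain ⟨w, hw0, hw1, hw2⟩ := hz δ hδ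
    refine ⟨w, hw0, hw1, ?_⟩
    have := gzero_symm h hw2
    show w + -f (-w) = 0
    linarith) (-x)
  have h3 : -x + -f (- -x) ≤ 0 := h2
  rw [neg_neg] at h3
  linarith

/-- the expanding negative regime is global -/
theorem exp_global {f : ℝ → ℝ} (h : Sol f) {η : ℝ} (hη : 0 < η)
    (hp : ∀ x, 0 < x → x < η → x + f x < 0) (hn : ∀ x, 0 < x → x < η → 0 < -x + f (-x)) :
    ∀ x, 0 < x → x + f x < 0 ∧ 0 < -x + f (-x) := by
  have hcg : Continuous (fun x => x + f x) := continuous_id.add h.1
  have hcg' : Continuous (fun x => -x + f (-x)) := continuous_neg.add (h.1.comp continuous_neg)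
  by_contra hcon
  push Not at hcon
  obtain ⟨x0, hx0, hfx0⟩ := hcon
  set B : Set ℝ := {x | 0 < x ∧ (0 ≤ x + f x ∨ -x + f (-x) ≤ 0)} with hB
  have hBne : B.Nonempty := by
    refine ⟨x0, hx0, ?_⟩
    by_cases h1 : x0 + f x0 < 0
    · right; exact hfx0 h1
    · left; exact not_lt.mp h1
  have hBη : ∀ x ∈ B, η ≤ x := by
    intro x hx
    by_contra hlt
    push Not at hlt
    have h1 := hp x hx.1 hlt
    have h2 := hn x hx.1 hlt
    rcases hx.2 with h3 | h3 <;> linarith
  have hBbd : BddBelow B := ⟨η, hBη⟩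
  set q := sInf B with hq
  have hqη : η ≤ q := le_csInf hBne hBη
  have hq0 : 0 < q := lt_of_lt_of_le hη hqη
  have hpos : ∀ x, 0 < x → x < q → x + f x < 0 ∧ 0 < -x + f (-x) := by
    intro x hx hxq
    constructor
    · by_contra hle
      push Not at hle
      have : q ≤ x := csInf_le hBbd ⟨hx, Or.inl hle⟩
      linarith
    · by_contra hle
      push Not at hle
      have : q ≤ x := csInf_le hBbd ⟨hx, Or.inr hle⟩
      linarith
  -- left limits
  have hleft1 : q + f q ≤ 0 := by
    by_contra hgt
    push Not at hgt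
    obtain ⟨δ, hδ, hb⟩ := Metric.eventually_nhds_iff.mp ((hcg.tendsto q).eventually
      (lt_mem_nhds hgt))
    have hm : 0 < min δ q := lt_min hδ hq0
    have h4 := hb (y := q - min δ q / 2) (by
      rw [Real.dist_eq, abs_lt]
      have := min_le_left δ q
      constructor <;> linarith)
    have h5 := hpos (q - min δ q / 2) (by have := min_le_right δ q; linarith) (by linarith)
    linarith [h5.1]
  have hleft2 : 0 ≤ -q + f (-q) := by
    by_contra hgt
    push Not at hgt
    obtain ⟨δ, hδ, hb⟩ := Metric.eventually_nhds_iff.mp ((hcg'.tendsto q).eventually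
      (gt_mem_nhds hgt))
    have hm : 0 < min δ q := lt_min hδ hq0
    have h4 := hb (y := q - min δ q / 2) (by
      rw [Real.dist_eq, abs_lt]
      have := min_le_left δ q
      constructor <;> linarith)
    have h5 := hpos (q - min δ q / 2) (by have := min_le_right δ q; linarith) (by linarith)
    linarith [h5.2]
  have hq1 : q + f q = 0 := by
    have h2 : q ∈ closure B := csInf_mem_closure hBne hBbd
    have h3 : closure B ⊆ {x | 0 ≤ x + f x} ∪ {x | -x + f (-x) ≤ 0} := by
      apply closure_minimal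
      · intro x hx
        exact hx.2
      · exact (isClosed_le continuous_const hcg).union (isClosed_le hcg' continuous_const)
    rcases h3 h2 with h4 | h4
    · exact le_antisymm hleft1 h4
    · have h5 : -q + f (-q) = 0 := le_antisymm h4 hleft2
      have := gzero_symm h h5
      rwa [neg_neg] at this
  have hq2 : -q + f (-q) = 0 := gzero_symm h hq1
  -- f x ≠ -q on (0,q)
  have hne1 : ∀ x, 0 < x → x < q → f x ≠ -q := by
    intro x hx hxq he
    have h1 := h.2 x
    rw [he] at h1
    have h2 := (hpos (q - x) (by linarith) (by linarith)).2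
    have e : -(q - x) = x + -q := by ring
    rw [e, h1] at h2
    linarith
  have hne2 : ∀ x, 0 < x → x < q → f (-x) ≠ q := by
    intro x hx hxq he
    have h1 := h.2 (-x)
    rw [he] at h1
    have h2 := (hpos (q - x) (by linarith) (by linarith)).1
    have e : q - x = -x + q := by ring
    rw [e, h1] at h2
    linarith
  have hlt1 : ∀ x, 0 < x → x < q → -q < f x := by
    intro x hx hxq
    by_contra hge
    push Not at hge
    have hmem : -q ∈ Set.Icc (f x) (f 0) := by
      rw [h.zero]; constructor <;> linarith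
    obtain ⟨s, hs, hsq⟩ := intermediate_value_Icc' hx.le h.1.continuousOn hmem
    have hs0 : 0 < s := by
      rcases eq_or_lt_of_le hs.1 with h1 | h1
      · rw [← h1, h.zero] at hsq; linarith
      · exact h1
    exact hne1 s hs0 (by linarith [hs.2]) hsq
  have hlt2 : ∀ x, 0 < x → x < q → f (-x) < q := by
    intro x hx hxq
    by_contra hge
    push Not at hge
    have hmem : q ∈ Set.Icc ((fun x => f (-x)) 0) ((fun x => f (-x)) x) := by
      simp only; rw [neg_zero, h.zero]; constructor <;> linarith
    obtain ⟨s, hs, hsq⟩ := intermediate_value_Icc hx.le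
      (h.1.comp continuous_neg).continuousOn hmem
    have hs0 : 0 < s := by
      rcases eq_or_lt_of_le hs.1 with h1 | h1
      · rw [← h1] at hsq
        have hsq' : f (-0) = q := hsq
        rw [neg_zero, h.zero] at hsq'; linarith
      · exact h1
    exact hne2 s hs0 (by linarith [hs.2]) hsq
  have hF : ∀ x, 0 < x → x < q → x < (fun x => f (f x)) x ∧ (fun x => f (f x)) x < q := by
    intro x hx hxq
    have h1 := (hpos x hx hxq).1
    have h2 := hlt1 x hx hxq
    have h3 := (hpos (-f x) (by linarith) (by linarith)).2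
    have h4 := hlt2 (-f x) (by linarith) (by linarith)
    rw [neg_neg] at h3 h4
    constructor
    · show x < f (f x)
      linarith
    · exact h4
  have hFc : Continuous (fun x => f (f x)) := h.1.comp h.1
  set x := q/2 with hxdef
  have hx : 0 < x := by rw [hxdef]; linarith
  have hxq : x < q := by rw [hxdef]; linarith
  have t1 := orbit_tendsto hFc hF hx hxq
  -- z = g x in (-q,0); f z in (0,q)
  set z := x + f x with hzdef
  have hz1 : z < 0 := (hpos x hx hxq).1
  have hz2 : -q < z := by rw [hzdef]; linarith [hlt1 x hx hxq]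
  have hfz1 : 0 < f z := by
    have := (hpos (-z) (by linarith) (by linarith)).2
    rw [neg_neg] at this; linarith
  have hfz2 : f z < q := by
    have := hlt2 (-z) (by linarith) (by linarith)
    rwa [neg_neg] at this
  have t2 := orbit_tendsto hFc hF hfz1 hfz2
  have hcomm : Function.Commute (fun x => x + f x) f := fun x => (h.2 x).symm
  have hcomm2 : Function.Commute (fun x => x + f x) (fun x => f (f x)) := by
    intro y
    show f (f y) + f (f (f y)) = f (f (y + f y))
    rw [h.2 y, ← h.2 (f y)]
  have hcomm3 : Function.Commute f (fun x => f (f x)) := fun y => rfl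
  have t3 : Filter.Tendsto (fun m : ℕ => (fun x => f (f x))^[m] z) Filter.atTop (nhds 0) := by
    have h1 : Filter.Tendsto (fun m : ℕ => (fun x => x + f x) ((fun x => f (f x))^[m] x))
        Filter.atTop (nhds (q + f q)) := (hcg.tendsto q).comp t1
    rw [hq1] at h1
    have e : (fun m : ℕ => (fun x => x + f x) ((fun x => f (f x))^[m] x))
        = (fun m : ℕ => (fun x => f (f x))^[m] z) := by
      funext m
      exact hcomm2.iterate_right m x
    rw [e] at h1
    exact h1
  have t4 : Filter.Tendsto (fun m : ℕ => f ((fun x => f (f x))^[m] z)) Filter.atTop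
      (nhds (f 0)) := (h.1.tendsto 0).comp t3
  have e4 : (fun m : ℕ => f ((fun x => f (f x))^[m] z))
      = (fun m : ℕ => (fun x => f (f x))^[m] (f z)) := by
    funext m
    exact hcomm3.iterate_right m z
  rw [e4, h.zero] at t4
  have := tendsto_nhds_unique t2 t4
  linarith

/-- the expanding negative regime: `f` is linear -/
theorem exp_linear {f : ℝ → ℝ} (h : Sol f)
    (hg : ∀ x, 0 < x → x + f x < 0 ∧ 0 < -x + f (-x)) : ∃ a : ℝ, ∀ x, f x = a * x := by
  have hcg : Continuous (fun x => x + f x) := continuous_id.add h.1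
  have hEH : EH (-1) f (fun x => x + f x) := by
    refine ⟨Or.inr rfl, hcg, ?_, ?_, ?_, ?_⟩
    · show 0 + f 0 = 0
      rw [h.zero]; ring
    · intro x hx
      show 0 < -1 * x * (x + f x)
      rcases lt_or_gt_of_ne hx with h0 | h0
      · have := (hg (-x) (by linarith)).2
        rw [neg_neg] at this
        nlinarith
      · have := (hg x h0).1
        nlinarith
    · intro x; ring
    · intro x
      show f (x + f x) = f x + f (f x)
      exact h.2 x
  have hr := h.refl
  have hEH' : EH (-1) (refl f) (fun x => x + refl f x) := by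
    refine ⟨Or.inr rfl, continuous_id.add hr.1, ?_, ?_, ?_, ?_⟩
    · show 0 + refl f 0 = 0
      rw [hr.zero]; ring
    · intro x hx
      show 0 < -1 * x * (x + -f (-x))
      rcases lt_or_gt_of_ne hx with h0 | h0
      · have := (hg (-x) (by linarith)).1
        nlinarith
      · have := (hg x h0).2
        nlinarith
    · intro x; ring
    · intro x
      exact hr.2 x
  obtain ⟨β, hβ, hl⟩ := hEH.linear_pos
  obtain ⟨β', hβ', hl'⟩ := hEH'.linear_pos
  have l1 : ∀ x, 0 < x → f x = -((1+β) * x) := by
    intro x hx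
    have : x + f x = -1 * (β * x) := hl x hx
    linarith
  have l2 : ∀ x, x < 0 → f x = -((1+β') * x) := by
    intro x hx
    have := hl' (-x) (by linarith)
    have h2 : -x + -f (- -x) = -1 * (β' * (-x)) := this
    rw [neg_neg] at h2
    linarith
  have hββ : β = β' := by
    have e := h.2 1
    rw [l1 1 one_pos] at e
    have e1 : (1:ℝ) + -((1+β)*1) = -β := by ring
    rw [e1, l2 (-β) (by linarith), l2 (-((1+β)*1)) (by linarith)] at e
    nlinarith
  refine ⟨-(1+β), fun x => ?_⟩
  rcases lt_trichotomy x 0 with h0 | h0 | h0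
  · rw [l2 x h0, ← hββ]; ring
  · rw [h0, h.zero]; ring
  · rw [l1 x h0]; ring

/-- the list of solutions -/
def Lst (f : ℝ → ℝ) : Prop :=
  (∃ a : ℝ, ∀ x, f x = a * x) ∨
    ∃ a b : ℝ, 0 ≤ a ∧ 0 ≤ b ∧ ∀ x, f x = if 0 ≤ x then a * x else b * x

theorem Lst.of_refl {f : ℝ → ℝ} (h : Lst (refl f)) : Lst f := by
  have hf : ∀ x, f x = -refl f (-x) := by
    intro x
    show f x = - -f (- -x)
    rw [neg_neg, neg_neg]
  rcases h with ⟨a, ha⟩ | ⟨a, b, ha, hb, hab⟩
  · left
    exact ⟨a, fun x => by rw [hf, ha]; ring⟩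
  · right
    refine ⟨b, a, hb, ha, fun x => ?_⟩
    rw [hf, hab]
    rcases lt_trichotomy x 0 with h0 | h0 | h0
    · rw [if_pos (by linarith), if_neg (not_le.mpr h0)]; ring
    · rw [h0]; simp
    · rw [if_neg (by linarith), if_pos h0.le]; ring

theorem case_pos {f : ℝ → ℝ} (h : Sol f) {η : ℝ} (hη : 0 < η)
    (hp : ∀ x, 0 < x → x < η → 0 < f x) : Lst f := by
  obtain ⟨a, ha, hl⟩ := pos_linear h hη hp
  have hr := h.refl
  have hB : ∀ x, 0 ≤ x → 0 ≤ refl f x := by
    apply nonneg_right hr ha
    intro x hx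
    show -f (-x) = a * x
    rw [hl (-x) (by linarith)]; ring
  rcases tri hr.1 with ⟨η', hη', h1⟩ | ⟨η', hη', h1⟩ | h1
  · obtain ⟨b, hb, hl'⟩ := pos_linear hr hη' h1
    right
    refine ⟨a, b, ha.le, hb.le, fun x => ?_⟩
    rcases le_or_gt 0 x with h0 | h0
    · rw [if_pos h0, hl x h0]
    · rw [if_neg (not_le.mpr h0)]
      have h2 : -f (- -x) = b * (-x) := hl' (-x) (by linarith)
      rw [neg_neg] at h2
      linarith
  · have h2 := hB (η'/2) (by linarith)
    have h3 := h1 (η'/2) (by linarith) (by linarith)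
    linarith
  · have h2 := nonpos_of_zeros hr h1
    right
    refine ⟨a, 0, ha.le, le_rfl, fun x => ?_⟩
    rcases le_or_gt 0 x with h0 | h0
    · rw [if_pos h0, hl x h0]
    · rw [if_neg (not_le.mpr h0)]
      have h3 := h2 (-x)
      have h4 := hB (-x) (by linarith)
      have h5 : -f (- -x) = 0 := le_antisymm h3 h4
      rw [neg_neg] at h5
      linarith

theorem case_negneg {f : ℝ → ℝ} (h : Sol f) {η : ℝ} (hη : 0 < η)
    (hp : ∀ x, 0 < x → x < η → f x < 0) (hn : ∀ x, 0 < x → x < η → 0 < f (-x)) :
    ∃ a : ℝ, ∀ x, f x = a * x := by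
  have hcg : Continuous (fun x => x + f x) := continuous_id.add h.1
  have hcg' : Continuous (fun x => -x + f (-x)) := continuous_neg.add (h.1.comp continuous_neg)
  have hgz : (∀ δ, 0 < δ → ∃ w, 0 < w ∧ w < δ ∧ w + f w = 0) → ∃ a : ℝ, ∀ x, f x = a * x := by
    intro hz
    exact ⟨-1, fun x => by rw [neg_id_of_gzeros h hz x]; ring⟩
  -- smallness
  have hsmall : ∀ δ, 0 < δ → ∃ x, 0 < x ∧ x < δ ∧ |f x| < δ ∧ |x + f x| < δ := by
    intro δ hδ
    have h1 : |f 0| < δ := by rw [h.zero, abs_zero]; exact hδ
    have h2 : |(0:ℝ) + f 0| < δ := by rw [h.zero, add_zero, abs_zero]; exact hδ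
    have c1 : ∀ᶠ x in nhds (0:ℝ), |f x| < δ := (h.1.abs.tendsto 0).eventually (gt_mem_nhds h1)
    have c2 : ∀ᶠ x in nhds (0:ℝ), |x + f x| < δ :=
      (hcg.abs.tendsto 0).eventually (gt_mem_nhds h2)
    obtain ⟨δ', hδ', hb⟩ := Metric.eventually_nhds_iff.mp (c1.and c2)
    have hm : 0 < min δ δ' := lt_min hδ hδ'
    refine ⟨min δ δ' / 2, by linarith, by linarith [min_le_left δ δ'], ?_⟩
    apply hb
    rw [Real.dist_eq, sub_zero, abs_of_pos (by linarith)]
    linarith [min_le_right δ δ']
  rcases tri hcg with ⟨η1, hη1, h1⟩ | ⟨η1, hη1, h1⟩ | h1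
  · rcases tri hcg' with ⟨η2, hη2, h2⟩ | ⟨η2, hη2, h2⟩ | h2
    · -- g > 0 on both sides: contradiction
      exfalso
      obtain ⟨x, hx0, hx1, hx2, hx3⟩ := hsmall (min η (min η1 η2)) (lt_min hη (lt_min hη1 hη2))
      have m1 := min_le_left η (min η1 η2)
      have m2 := (min_le_right η (min η1 η2)).trans (min_le_left η1 η2)
      have m3 := (min_le_right η (min η1 η2)).trans (min_le_right η1 η2)
      have a1 := hp x hx0 (by linarith)
      have a2 := h1 x hx0 (by linarith)
      rw [abs_lt] at hx2 hx3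
      have a3 := hp (x + f x) a2 (by linarith [hx3.2])
      have a4 := h2 (-f x) (by linarith) (by linarith [hx2.1])
      rw [neg_neg] at a4
      have := h.2 x
      linarith
    · -- contracting regime
      have hCR : CR f (min η (min η1 η2)) := by
        have m1 := min_le_left η (min η1 η2)
        have m2 := (min_le_right η (min η1 η2)).trans (min_le_left η1 η2)
        have m3 := (min_le_right η (min η1 η2)).trans (min_le_right η1 η2)
        refine ⟨h.1, h.2, h.zero, lt_min hη (lt_min hη1 hη2), ?_, ?_⟩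
        · intro x hx hx'
          exact ⟨hp x hx (by linarith), h1 x hx (by linarith)⟩
        · intro x hx hx'
          have b1 := hn (-x) (by linarith) (by linarith)
          have b2 := h2 (-x) (by linarith) (by linarith)
          rw [neg_neg] at b1 b2
          exact ⟨b1, b2⟩
      exact contract_linear hCR
    · apply hgz
      intro δ hδ
      obtain ⟨w, hw0, hw1, hw2⟩ := h2 δ hδ
      refine ⟨w, hw0, hw1, ?_⟩
      have := gzero_symm h hw2
      rwa [neg_neg] at this
  · rcases tri hcg' with ⟨η2, hη2, h2⟩ | ⟨η2, hη2, h2⟩ | h2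
    · -- expanding regime
      have m0 : 0 < min η1 η2 := lt_min hη1 hη2
      have := exp_global h m0 (fun x hx hx' => h1 x hx (lt_of_lt_of_le hx' (min_le_left _ _)))
        (fun x hx hx' => h2 x hx (lt_of_lt_of_le hx' (min_le_right _ _)))
      exact exp_linear h this
    · -- g < 0 on both sides: contradiction
      exfalso
      obtain ⟨x, hx0, hx1, hx2, hx3⟩ := hsmall (min η (min η1 η2)) (lt_min hη (lt_min hη1 hη2))
      have m1 := min_le_left η (min η1 η2)
      have m2 := (min_le_right η (min η1 η2)).trans (min_le_left η1 η2)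
      have m3 := (min_le_right η (min η1 η2)).trans (min_le_right η1 η2)
      have a1 := hp x hx0 (by linarith)
      have a2 := h1 x hx0 (by linarith)
      rw [abs_lt] at hx2 hx3
      have a3 := hn (-(x + f x)) (by linarith) (by linarith [hx3.1])
      rw [neg_neg] at a3
      have a4 := h2 (-f x) (by linarith) (by linarith [hx2.1])
      rw [neg_neg] at a4
      have := h.2 x
      linarith
    · apply hgz
      intro δ hδ
      obtain ⟨w, hw0, hw1, hw2⟩ := h2 δ hδ
      refine ⟨w, hw0, hw1, ?_⟩
      have := gzero_symm h hw2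
      rwa [neg_neg] at this
  · exact hgz h1

theorem classification {f : ℝ → ℝ} (h : Sol f) : Lst f := by
  have hr := h.refl
  rcases tri h.1 with ⟨η, hη, h1⟩ | ⟨η, hη, h1⟩ | h1
  · exact case_pos h hη h1
  · rcases tri hr.1 with ⟨η', hη', h2⟩ | ⟨η', hη', h2⟩ | h2
    · exact Lst.of_refl (case_pos hr hη' h2)
    · left
      apply case_negneg h (lt_min hη hη')
        (fun x hx hx' => h1 x hx (lt_of_lt_of_le hx' (min_le_left _ _)))
      intro x hx hx'
      have h3 : -f (-x) < 0 := h2 x hx (lt_of_lt_of_le hx' (min_le_right _ _))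
      linarith
    · exfalso
      have h3 : -f (- -(η/2)) ≤ 0 := nonpos_of_zeros hr h2 (-(η/2))
      rw [neg_neg] at h3
      have h4 := h1 (η/2) (by linarith) (by linarith)
      linarith
  · have hle := nonpos_of_zeros h h1
    rcases tri hr.1 with ⟨η', hη', h2⟩ | ⟨η', hη', h2⟩ | h2
    · exact Lst.of_refl (case_pos hr hη' h2)
    · exfalso
      have h3 : -f (-(η'/2)) < 0 := h2 (η'/2) (by linarith) (by linarith)
      have h4 := hle (-(η'/2))
      linarith
    · left
      refine ⟨0, fun x => ?_⟩
      have h3 : -f (- -x) ≤ 0 := nonpos_of_zeros hr h2 (-x)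
      rw [neg_neg] at h3
      have h4 := hle x
      linarith

end Pool.Agent.Lib.MP12983e
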